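import Pool.Agent.CrownPoset.Pattern

/-!
# Dimension of the direction space of a pattern
-/

namespace Pool.Agent.CrownPoset

open Crown St

variable {n : ℕ} [NeZero n]

omit [NeZero n] in
theorem Valid.eq_of_true {π : Pat n} (hv : Valid π) {p : Crown n} (h : (π p).2 = true) :
    (π (p + 1)).1 = (π p).1 := by
  obtain ⟨h1, h2⟩ := hv p
  by_cases ho : Odd p
  · have := h1 ho
    rw [h] at this
    revert this
    rcases (π p).1 with _ | _ | _ <;> rcases (π (p + 1)).1 with _ | _ | _ <;> simp [okU]
  · have := h2 ho
    rw [h] at this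
    revert this
    rcases (π p).1 with _ | _ | _ <;> rcases (π (p + 1)).1 with _ | _ | _ <;> simp [okU]

/-- block starts: free elements whose preceding edge is not an equality -/
def starts (π : Pat n) : Finset (Crown n) :=
  Finset.univ.filter fun q => (π q).1 = F ∧ (π (q - 1)).2 = false

theorem mem_starts {π : Pat n} {q : Crown n} :
    q ∈ starts π ↔ (π q).1 = F ∧ (π (q - 1)).2 = false := by
  simp [starts]

/-- the block starting at `b` -/
def Blk (π : Pat n) (b q : Crown n) : Prop :=
  ∃ k : ℕ, q = b + (k : Crown n) ∧ ∀ j < k, (π (b + (j : Crown n))).2 = true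

omit [NeZero n] in
theorem Blk.self (π : Pat n) (b : Crown n) : Blk π b b := ⟨0, by simp, by simp⟩

omit [NeZero n] in
theorem Blk.status {π : Pat n} (hv : Valid π) {b q : Crown n} (h : Blk π b q) :
    (π q).1 = (π b).1 := by
  obtain ⟨k, rfl, hk⟩ := h
  induction k with
  | zero => simp
  | succ k ih =>
    have h1 := ih fun j hj => hk j (by omega)
    have h2 := hv.eq_of_true (hk k (by omega))
    rw [← h1, ← h2]
    congr 2
    push_cast; ring

theorem Blk.succ_iff {π : Pat n} {b q : Crown n} (hb : b ∈ starts π) (hq : (π q).2 = true) :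
    Blk π b q ↔ Blk π b (q + 1) := by
  constructor
  · rintro ⟨k, rfl, hk⟩
    refine ⟨k + 1, by push_cast; ring, fun j hj => ?_⟩
    rcases Nat.lt_or_ge j k with h | h
    · exact hk j h
    · have : j = k := by omega
      subst this; exact hq
  · rintro ⟨k, hqk, hk⟩
    rcases k with _ | k
    · exfalso
      have : q = b - 1 := by
        rw [Nat.cast_zero, add_zero] at hqk
        rw [← hqk]; ring
      rw [this, (mem_starts.1 hb).2] at hq
      exact absurd hq (by decide)
    · refine ⟨k, ?_, fun j hj => hk j (by omega)⟩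
      have : q + 1 = b + (k : Crown n) + 1 := by rw [hqk]; push_cast; ring
      exact add_right_cancel this

theorem Blk.eq_of_starts {π : Pat n} {b b' : Crown n} (hb' : b' ∈ starts π)
    (h : Blk π b b') : b' = b := by
  obtain ⟨k, hk, hj⟩ := h
  rcases k with _ | k
  · simpa using hk
  · exfalso
    have h1 := hj k (by omega)
    have h2 : b' - 1 = b + (k : Crown n) := by rw [hk]; push_cast; ring
    rw [← h2, (mem_starts.1 hb').2] at h1
    exact absurd h1 (by decide)

open Classical in
/-- indicator of a block -/
noncomputable def ind (π : Pat n) (b : Crown n) : Crown n → ℝ := fun q => if Blk π b q then 1 else 0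

theorem ind_mem {π : Pat n} (hv : Valid π) {b : Crown n} (hb : b ∈ starts π) : ind π b ∈ Kp π := by
  rw [mem_Kp]
  intro p
  constructor
  · intro hp
    have : ¬ Blk π b p := fun h => hp (by rw [h.status hv]; exact (mem_starts.1 hb).1)
    simp [ind, this]
  · intro hp
    have := Blk.succ_iff hb hp
    by_cases h : Blk π b p
    · simp [ind, h, this.1 h]
    · have h' : ¬ Blk π b (p + 1) := fun h2 => h (this.2 h2)
      simp [ind, h, h']

omit [NeZero n] in
theorem ind_self (π : Pat n) (b : Crown n) : ind π b b = 1 := by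
  simp [ind, Blk.self]

theorem ind_ne {π : Pat n} {b b' : Crown n} (hb' : b' ∈ starts π) (hne : b' ≠ b) :
    ind π b b' = 0 := by
  have : ¬ Blk π b b' := fun h => hne (Blk.eq_of_starts hb' h)
  simp [ind, this]

/-- restriction to block starts -/
def resMap (π : Pat n) : Kp π →ₗ[ℝ] (starts π → ℝ) where
  toFun v := fun b => (v : Crown n → ℝ) b
  map_add' := by intro a b; rfl
  map_smul' := by intro a b; rfl

theorem resMap_injective {π : Pat n}
    (hbreak : ¬ ∀ p, (π p).1 = F ∧ (π p).2 = true) : Function.Injective (resMap π) := by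
  rw [injective_iff_map_eq_zero]
  rintro ⟨v, hv⟩ h0
  by_contra hne
  have hne' : v ≠ 0 := fun h => hne (Subtype.ext h)
  obtain ⟨p, hp⟩ := Function.ne_iff.1 hne'
  have hp' : v p ≠ 0 := hp
  have hstart : ∀ b ∈ starts π, v b = 0 := fun b hb => congrFun h0 ⟨b, hb⟩
  have step : ∀ q, v q ≠ 0 → (π q).1 = F ∧ (π (q - 1)).2 = true ∧ v (q - 1) ≠ 0 := by
    intro q hq
    have h1 : (π q).1 = F := by
      by_contra hcon
      exact hq ((hv q).1 hcon)
    have h2 : (π (q - 1)).2 = true := by
      by_contra hcon
      have : q ∈ starts π := mem_starts.2 ⟨h1, by simpa using hcon⟩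
      exact hq (hstart q this)
    refine ⟨h1, h2, ?_⟩
    have := (hv (q - 1)).2 h2
    rw [this, sub_add_cancel]; exact hq
  have hall : ∀ k : ℕ, v (p - (k : Crown n)) ≠ 0 := by
    intro k
    induction k with
    | zero => simpa using hp'
    | succ k ih =>
      have := (step _ ih).2.2
      have e : p - ((k + 1 : ℕ) : Crown n) = p - (k : Crown n) - 1 := by push_cast; ring
      rw [e]; exact this
  have hall' : ∀ q, v q ≠ 0 := by
    intro q
    have := hall (cval (p - q))
    rw [cast_cval] at this
    have e : p - (p - q) = q := by ring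
    rwa [e] at this
  apply hbreak
  intro q
  refine ⟨(step q (hall' q)).1, ?_⟩
  have := (step (q + 1) (hall' _)).2.1
  rwa [add_sub_cancel_right] at this

theorem resMap_surjective {π : Pat n} (hv : Valid π) : Function.Surjective (resMap π) := by
  intro w
  refine ⟨∑ b : starts π, w b • ⟨ind π b, ind_mem hv b.2⟩, ?_⟩
  rw [map_sum]
  funext b'
  rw [Finset.sum_apply, Finset.sum_eq_single b']
  · rw [map_smul, Pi.smul_apply]
    show w b' • ind π b' b' = w b'
    rw [ind_self, smul_eq_mul, mul_one]
  · intro b _ hne
    rw [map_smul, Pi.smul_apply]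
    show w b • ind π b b' = 0
    rw [ind_ne b'.2 (fun h => hne (Subtype.ext h).symm), smul_zero]
  · intro h; exact absurd (Finset.mem_univ _) h

theorem finrank_Kp {π : Pat n} (hv : Valid π) (hbreak : ¬ ∀ p, (π p).1 = F ∧ (π p).2 = true) :
    Module.finrank ℝ (Kp π) = (starts π).card := by
  have e := LinearEquiv.ofBijective (resMap π) ⟨resMap_injective hbreak, resMap_surjective hv⟩
  rw [e.finrank_eq, Module.finrank_fintype_fun_eq_card, Fintype.card_coe]

/-- the all-free all-equal pattern has a one-dimensional direction space -/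
theorem finrank_Kp_const {π : Pat n} (h : ∀ p, (π p).1 = F ∧ (π p).2 = true) :
    Module.finrank ℝ (Kp π) = 1 := by
  have hone : (fun _ => (1 : ℝ)) ∈ Kp π := by
    rw [mem_Kp]; intro p; exact ⟨fun h' => absurd (h p).1 h', fun _ => rfl⟩
  refine finrank_eq_one ⟨_, hone⟩ ?_ ?_
  · intro h0
    have := congrFun (congrArg Subtype.val h0) 0
    exact one_ne_zero this
  · rintro ⟨v, hv⟩
    refine ⟨v 0, Subtype.ext ?_⟩
    funext q
    have hk : ∀ k : ℕ, v (k : Crown n) = v 0 := by
      intro k
      induction k with
      | zero => simp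
      | succ k ih =>
        have := (hv (k : Crown n)).2 (h _).2
        push_cast
        rw [← this, ih]
    have := hk (cval q)
    rw [cast_cval] at this
    show v 0 • (1 : ℝ) = v q
    rw [this, smul_eq_mul, mul_one]

end Pool.Agent.CrownPoset
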