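import Pool.Agent.CrownPoset.Pattern

/-!
# Every locally valid pattern which is not bad is realised
-/

namespace Pool.Agent.CrownPoset

open Crown St

variable {n : ℕ} [NeZero n]

/-- The point built from a potential. -/
noncomputable def mkPt (π : Pat n) (ε : ℝ) (h : Crown n → ℝ) : Crown n → ℝ := fun p =>
  match (π p).1 with
  | Z => 0
  | O => 1
  | F => 1 / 2 + ε * h p

omit [NeZero n] in
theorem mkPt_Z {π : Pat n} {ε : ℝ} {h : Crown n → ℝ} {p : Crown n} (hp : (π p).1 = Z) :
    mkPt π ε h p = 0 := by simp [mkPt, hp]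

omit [NeZero n] in
theorem mkPt_O {π : Pat n} {ε : ℝ} {h : Crown n → ℝ} {p : Crown n} (hp : (π p).1 = O) :
    mkPt π ε h p = 1 := by simp [mkPt, hp]

omit [NeZero n] in
theorem mkPt_F {π : Pat n} {ε : ℝ} {h : Crown n → ℝ} {p : Crown n} (hp : (π p).1 = F) :
    mkPt π ε h p = 1 / 2 + ε * h p := by simp [mkPt, hp]

theorem exists_small (h : Crown n → ℝ) : ∃ ε : ℝ, 0 < ε ∧ ∀ p, 0 < 1 / 2 + ε * h p ∧
    1 / 2 + ε * h p < 1 := by
  set M := ∑ p, |h p| with hM
  have hM0 : 0 ≤ M := Finset.sum_nonneg fun p _ => abs_nonneg _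
  have hle : ∀ p, |h p| ≤ M := fun p =>
    Finset.single_le_sum (f := fun p => |h p|) (fun q _ => abs_nonneg _) (Finset.mem_univ p)
  refine ⟨1 / (4 * (M + 1)), by positivity, fun p => ?_⟩
  have h1 : |1 / (4 * (M + 1)) * h p| ≤ 1 / 4 := by
    rw [abs_mul, abs_of_nonneg (by positivity : (0 : ℝ) ≤ 1 / (4 * (M + 1)))]
    have h2 := hle p
    have h3 : 1 / (4 * (M + 1)) * |h p| ≤ 1 / (4 * (M + 1)) * (M + 1) :=
      mul_le_mul_of_nonneg_left (by linarith) (by positivity)
    refine h3.trans (le_of_eq ?_)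
    field_simp
  rw [abs_le] at h1
  constructor <;> linarith [h1.1, h1.2]

theorem rel_aux {s t : St} {e : Bool} {a b : ℝ} (hok : okU s e t = true)
    (aZ : s = Z → a = 0) (aO : s = O → a = 1) (aF : s = F → 0 < a ∧ a < 1)
    (bZ : t = Z → b = 0) (bO : t = O → b = 1) (bF : t = F → 0 < b ∧ b < 1)
    (h0 : s = F → t = F → e = true → a = b) (h1 : s = F → t = F → e = false → a < b) :
    a ≤ b ∧ (a = b ↔ e = true) := by
  cases s <;> cases t <;> cases e <;> simp only [okU, reduceCtorEq, Bool.false_eq_true] at hok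
  · -- Z Z true
    rw [aZ rfl, bZ rfl]; simp
  · -- Z F false
    obtain ⟨b0, b1⟩ := bF rfl
    rw [aZ rfl]
    refine ⟨b0.le, ?_⟩
    simp only [Bool.false_eq_true, iff_false]
    exact b0.ne
  · -- Z O false
    rw [aZ rfl, bO rfl]; simp
  · -- F F false
    have := h1 rfl rfl rfl
    refine ⟨this.le, ?_⟩
    simp only [Bool.false_eq_true, iff_false]
    exact this.ne
  · -- F F true
    have := h0 rfl rfl rfl
    refine ⟨this.le, ?_⟩
    simp [this]
  · -- F O false
    obtain ⟨a0, a1⟩ := aF rfl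
    rw [bO rfl]
    refine ⟨a1.le, ?_⟩
    simp only [Bool.false_eq_true, iff_false]
    exact a1.ne
  · -- O O true
    rw [aO rfl, bO rfl]; simp

/-- Key lemma: a suitable potential gives a point with the prescribed pattern. -/
theorem realize_of_potential {π : Pat n} (hv : Valid π) (h : Crown n → ℝ)
    (h0 : ∀ p, (π p).1 = F → (π (p + 1)).1 = F → (π p).2 = true → h (p + 1) = h p)
    (h1 : ∀ p, (π p).1 = F → (π (p + 1)).1 = F → (π p).2 = false → Odd p → h p < h (p + 1))
    (h2 : ∀ p, (π p).1 = F → (π (p + 1)).1 = F → (π p).2 = false → ¬ Odd p → h (p + 1) < h p) :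
    ∃ x ∈ orderPolytope (Crown n), pat x = π := by
  obtain ⟨ε, hε, hsmall⟩ := exists_small h
  have hst : ∀ p, st (mkPt π ε h p) = (π p).1 := by
    intro p
    rcases hp : (π p).1 with _ | _ | _
    · rw [mkPt_Z hp]; exact st_eq_Z.2 rfl
    · rw [mkPt_F hp, st_eq_F]
      obtain ⟨a, b⟩ := hsmall p
      exact ⟨a.ne', b.ne⟩
    · rw [mkPt_O hp]; exact st_eq_O.2 rfl
  have hF : ∀ p, (π p).1 = F → 0 < mkPt π ε h p ∧ mkPt π ε h p < 1 := by
    intro p hp
    rw [mkPt_F hp]; exact hsmall p
  have hU : ∀ p, Odd p → mkPt π ε h p ≤ mkPt π ε h (p + 1) ∧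
      (mkPt π ε h p = mkPt π ε h (p + 1) ↔ (π p).2 = true) := by
    intro p ho
    refine rel_aux ((hv p).1 ho) mkPt_Z mkPt_O (hF p) mkPt_Z mkPt_O (hF (p + 1)) ?_ ?_
    · intro a b c
      rw [mkPt_F a, mkPt_F b, h0 p a b c]
    · intro a b c
      rw [mkPt_F a, mkPt_F b]
      have := mul_lt_mul_of_pos_left (h1 p a b c ho) hε
      linarith
  have hD : ∀ p, ¬ Odd p → mkPt π ε h (p + 1) ≤ mkPt π ε h p ∧
      (mkPt π ε h (p + 1) = mkPt π ε h p ↔ (π p).2 = true) := by
    intro p ho
    refine rel_aux ((hv p).2 ho) mkPt_Z mkPt_O (hF (p + 1)) mkPt_Z mkPt_O (hF p) ?_ ?_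
    · intro a b c
      rw [mkPt_F a, mkPt_F b, h0 p b a c]
    · intro a b c
      rw [mkPt_F a, mkPt_F b]
      have := mul_lt_mul_of_pos_left (h2 p b a c ho) hε
      linarith
  refine ⟨mkPt π ε h, ?_, ?_⟩
  · rw [mem_orderPolytope]
    refine ⟨fun p => ?_, fun p hp => (hU p hp).1, fun p hp => (hD p hp).1⟩
    rcases hp : (π p).1 with _ | _ | _
    · rw [mkPt_Z hp]; norm_num
    · rw [mkPt_F hp]; exact ⟨(hsmall p).1.le, (hsmall p).2.le⟩
    · rw [mkPt_O hp]; norm_num
  · funext p
    refine Prod.ext (hst p) ?_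
    have key : mkPt π ε h p = mkPt π ε h (p + 1) ↔ (π p).2 = true := by
      by_cases ho : Odd p
      · exact (hU p ho).2
      · rw [← (hD p ho).2, eq_comm]
    simp only [pat]
    rcases he : (π p).2 with _ | _
    · rw [decide_eq_false_iff_not, key, he]; simp
    · rw [decide_eq_true_eq, key, he]

theorem realize {π : Pat n} (hv : Valid π) (hb : ¬ Bad π) :
    ∃ x ∈ orderPolytope (Crown n), pat x = π := by
  classical
  by_cases hall : ∀ p, (π p).1 = F
  · -- all free
    set u : ℝ := ((Finset.univ.filter fun p => (π p).2 = false ∧ Odd p).card : ℝ) with hu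
    set d : ℝ := ((Finset.univ.filter fun p => (π p).2 = false ∧ ¬ Odd p).card : ℝ) with hd
    set σ : Crown n → ℝ := fun p =>
      (if (π p).2 = false ∧ Odd p then d else 0) + (if (π p).2 = false ∧ ¬ Odd p then -u else 0)
      with hσ
    have hsum : ∑ p, σ p = 0 := by
      rw [hσ, Finset.sum_add_distrib, ← Finset.sum_filter, ← Finset.sum_filter, Finset.sum_const,
        Finset.sum_const, nsmul_eq_mul, nsmul_eq_mul, ← hu, ← hd]
      ring
    obtain ⟨h, -, hh⟩ := exists_potential σ 0
    have hh' := hh hsum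
    have hnb : ∀ p, (π p).2 = false → 0 < u ∧ 0 < d := by
      intro p hp
      constructor
      · rw [hu]
        have : 0 < (Finset.univ.filter fun p => (π p).2 = false ∧ Odd p).card := by
          rw [Finset.card_pos]
          by_contra hcon
          rw [Finset.not_nonempty_iff_eq_empty, Finset.filter_eq_empty_iff] at hcon
          exact hb ⟨hall, ⟨p, hp⟩, Or.inr fun q hq ho => hcon (Finset.mem_univ q) ⟨hq, ho⟩⟩
        exact_mod_cast this
      · rw [hd]
        have : 0 < (Finset.univ.filter fun p => (π p).2 = false ∧ ¬ Odd p).card := by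
          rw [Finset.card_pos]
          by_contra hcon
          rw [Finset.not_nonempty_iff_eq_empty, Finset.filter_eq_empty_iff] at hcon
          refine hb ⟨hall, ⟨p, hp⟩, Or.inl fun q hq => ?_⟩
          by_contra ho
          exact hcon (Finset.mem_univ q) ⟨hq, ho⟩
        exact_mod_cast this
    refine realize_of_potential hv h ?_ ?_ ?_
    · intro p _ _ he
      rw [hh' p, hσ]
      simp [he]
    · intro p _ _ he ho
      rw [hh' p, hσ]
      simp only [he, ho, not_true_eq_false, and_false, if_false, and_self, if_true, add_zero]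
      linarith [(hnb p he).2]
    · intro p _ _ he ho
      rw [hh' p, hσ]
      simp only [he, ho, not_false_eq_true, and_false, if_false, and_self, if_true, zero_add]
      linarith [(hnb p he).1]
  · push Not at hall
    obtain ⟨r, hr⟩ := hall
    set σ : Crown n → ℝ := fun p =>
      if (π p).2 = true then 0 else if Odd p then 1 else -1 with hσ
    obtain ⟨h, hh, -⟩ := exists_potential σ r
    have hne : ∀ p, (π (p + 1)).1 = F → p + 1 ≠ r := by
      intro p hp he
      rw [he] at hp
      exact hr hp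
    refine realize_of_potential hv h ?_ ?_ ?_
    · intro p _ hq he
      rw [hh p (hne p hq), hσ]
      simp [he]
    · intro p _ hq he ho
      rw [hh p (hne p hq), hσ]
      simp [he, ho]
    · intro p _ hq he ho
      rw [hh p (hne p hq), hσ]
      simp only [he, ho, if_false, Bool.false_eq_true]
      linarith

/-- Realisable patterns. -/
theorem realizable_iff {π : Pat n} :
    (∃ x ∈ orderPolytope (Crown n), pat x = π) ↔ Valid π ∧ ¬ Bad π := by
  constructor
  · rintro ⟨x, hx, rfl⟩
    exact ⟨valid_pat hx, not_bad_pat hx⟩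
  · rintro ⟨h1, h2⟩
    exact realize h1 h2

end Pool.Agent.CrownPoset
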