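import Pool.Agent.CrownPoset.TraceLam
import Pool.Agent.CrownPoset.Realize
import Pool.Agent.CrownPoset.Dim

/-!
# Counting the faces
-/

namespace Pool.Agent.CrownPoset

open Crown St Polynomial

theorem cyc_sum_zmod {S R : Type*} [Fintype S] [DecidableEq S] [CommRing R] (m : ℕ) [NeZero m]
    (M : ℕ → S → S → R) :
    ∑ s : ZMod m → S, ∏ p : ZMod m, M (ZMod.val p) (s p) (s (p + 1)) = (prodM M m).trace := by
  obtain ⟨k, rfl⟩ : ∃ k, m = k + 1 := ⟨m - 1, by have := NeZero.pos m; omega⟩
  exact cyc_sum M k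

variable {n : ℕ} [NeZero n]

theorem cyc_sum_crown {S R : Type*} [Fintype S] [DecidableEq S] [CommRing R] (D U : S → S → R) :
    ∑ s : Crown n → S, ∏ p : Crown n, (if Even (cval p) then D else U) (s p) (s (p + 1)) =
      ((Matrix.of D * Matrix.of U) ^ n).trace := by
  rw [← prodM_alt]
  exact cyc_sum_zmod (2 * n) (fun k => if Even k then D else U)

open Classical in
/-- local weights -/
noncomputable def wt (p : Crown n) (c : St × Bool) (t : St) : ℝ[X] :=
  if Odd p then wU c.1 c.2 t else wD c.1 c.2 t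

open Classical in
theorem prod_wt (π : Pat n) : ∏ p, wt p (π p) (π (p + 1)).1 =
    if Valid π then X ^ (starts π).card else 0 := by
  split_ifs with hv
  · have h1 : ∀ p, wt p (π p) (π (p + 1)).1 =
        if (π (p + 1)).1 = F ∧ (π p).2 = false then X else 1 := by
      intro p
      unfold wt
      split_ifs with ho h2 h2
      · rw [wU, if_pos ((hv p).1 ho), if_pos h2]
      · rw [wU, if_pos ((hv p).1 ho), if_neg h2]
      · rw [wD, if_pos ((hv p).2 ho), if_pos h2]
      · rw [wD, if_pos ((hv p).2 ho), if_neg h2]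
    rw [Finset.prod_congr rfl fun p _ => h1 p]
    have h2 : ∏ q : Crown n, (if (π q).1 = F ∧ (π (q - 1)).2 = false then (X : ℝ[X]) else 1) =
        X ^ (starts π).card := by
      rw [Finset.prod_ite, Finset.prod_const, Finset.prod_const_one, mul_one]
      rfl
    rw [← h2]
    refine Fintype.prod_equiv (Equiv.addRight 1) _ _ fun p => ?_
    simp only [Equiv.coe_addRight, add_sub_cancel_right]
  · unfold Valid at hv
    push Not at hv
    obtain ⟨p, hp⟩ := hv
    refine Finset.prod_eq_zero (Finset.mem_univ p) ?_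
    unfold wt
    split_ifs with ho
    · rw [wU, if_neg]
      intro h
      exact (hp fun _ => h).1 ho
    · rw [wD, if_neg]
      intro h
      by_cases h3 : (Odd p → okU (π p).1 (π p).2 (π (p + 1)).1 = true)
      · exact (hp h3).2 h
      · exact h3 fun h4 => absurd h4 ho

theorem sum_split {M : Type*} [AddCommMonoid M] (f : Pat n → M) :
    ∑ π : Pat n, f π = ∑ s : Crown n → St, ∑ e : Crown n → Bool, f (fun p => (s p, e p)) := by
  rw [← Fintype.sum_prod_type' (fun (s : Crown n → St) (e : Crown n → Bool) =>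
    f (fun p => (s p, e p)))]
  refine Fintype.sum_equiv (Equiv.arrowProdEquivProdArrow (Crown n) (fun _ => St) (fun _ => Bool))
    _ _ fun π => rfl

theorem sum_wt : ∑ π : Pat n, ∏ p, wt p (π p) (π (p + 1)).1 = 1 + (X + 1) ^ n * Lam n := by
  rw [sum_split]
  have h1 : ∀ s : Crown n → St, ∑ e : Crown n → Bool, ∏ p, wt p (s p, e p) (s (p + 1)) =
      ∏ p : Crown n, (if Even (cval p) then mD else mU) (s p) (s (p + 1)) := by
    intro s
    rw [← Fintype.prod_sum (fun (p : Crown n) (e : Bool) => wt p (s p, e) (s (p + 1)))]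
    refine Finset.prod_congr rfl fun p _ => ?_
    by_cases ho : Odd p
    · have : ¬ Even (cval p) := by rw [Nat.not_even_iff_odd]; exact odd_iff.1 ho
      rw [if_neg this, mU]
      refine Finset.sum_congr rfl fun e _ => ?_
      rw [wt, if_pos ho]
    · have : Even (cval p) := by
        rw [← Nat.not_odd_iff_even]; exact fun h => ho (odd_iff.2 h)
      rw [if_pos this, mD]
      refine Finset.sum_congr rfl fun e _ => ?_
      rw [wt, if_neg ho]
  simp only
  rw [Finset.sum_congr rfl fun s _ => h1 s, cyc_sum_crown, mul_eq, trace_eq]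

open Classical in
theorem sum_valid : ∑ π ∈ Finset.univ.filter (fun π : Pat n => Valid π), X ^ (starts π).card =
    1 + (X + 1) ^ n * Lam n := by
  rw [← sum_wt (n := n), Finset.sum_filter]
  exact Finset.sum_congr rfl fun π _ => (prod_wt π).symm

/-- all free, and unequal marks only at positions satisfying `Q` -/
def GoodAll (Q : Crown n → Prop) (π : Pat n) : Prop :=
  (∀ p, (π p).1 = F) ∧ ∀ p, (π p).2 = false → Q p

omit [NeZero n] in
theorem okF (e : Bool) : okU F e F = true := by cases e <;> rfl

omit [NeZero n] in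
theorem GoodAll.valid {Q : Crown n → Prop} {π : Pat n} (h : GoodAll Q π) : Valid π := by
  intro p
  rw [h.1 p, h.1 (p + 1)]
  exact ⟨fun _ => okF _, fun _ => okF _⟩

open Classical in
theorem prod_goodAll (Q : Crown n → Prop) (π : Pat n) :
    ∏ p, (if (π p).1 = F then (if (π p).2 = true then 1 else if Q p then (X : ℝ[X]) else 0) else 0) =
    if GoodAll Q π then X ^ (starts π).card else 0 := by
  split_ifs with hv
  · have h1 : ∀ p, (if (π p).1 = F then (if (π p).2 = true then 1 else if Q p then (X : ℝ[X]) else 0)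
        else 0) = if (π p).2 = false then (X : ℝ[X]) else 1 := by
      intro p
      rw [if_pos (hv.1 p)]
      rcases he : (π p).2 with _ | _
      · rw [if_pos (hv.2 p he)]; simp
      · simp
    rw [Finset.prod_congr rfl fun p _ => h1 p]
    have h2 : ∏ q : Crown n, (if (π q).1 = F ∧ (π (q - 1)).2 = false then (X : ℝ[X]) else 1) =
        X ^ (starts π).card := by
      rw [Finset.prod_ite, Finset.prod_const, Finset.prod_const_one, mul_one]
      rfl
    rw [← h2]
    refine Fintype.prod_equiv (Equiv.addRight 1) _ _ fun p => ?_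
    simp only [Equiv.coe_addRight, add_sub_cancel_right, hv.1, true_and]
  · unfold GoodAll at hv
    rw [not_and_or] at hv
    rcases hv with hv | hv
    · push Not at hv
      obtain ⟨p, hp⟩ := hv
      refine Finset.prod_eq_zero (Finset.mem_univ p) ?_
      rw [if_neg hp]
    · push Not at hv
      obtain ⟨p, hp, hq⟩ := hv
      refine Finset.prod_eq_zero (Finset.mem_univ p) ?_
      rw [hp, if_neg hq]; simp

open Classical in
theorem sum_goodAll (Q : Crown n → Prop) :
    ∑ π ∈ Finset.univ.filter (fun π : Pat n => GoodAll Q π), (X : ℝ[X]) ^ (starts π).card =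
      ∏ p : Crown n, (if Q p then 1 + X else 1) := by
  rw [Finset.sum_filter, ← Finset.sum_congr rfl fun π _ => prod_goodAll Q π,
    ← Fintype.prod_sum (fun (p : Crown n) (c : St × Bool) =>
      (if c.1 = F then (if c.2 = true then 1 else if Q p then (X : ℝ[X]) else 0) else 0))]
  refine Finset.prod_congr rfl fun p _ => ?_
  rw [Fintype.sum_prod_type, sum_St]
  simp only [Fintype.sum_bool]
  split_ifs <;> simp_all

omit [NeZero n] in
theorem prod_range_alt (a b : ℝ[X]) (k : ℕ) :
    ∏ j ∈ Finset.range (2 * k), (if Even j then a else b) = (a * b) ^ k := by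
  induction k with
  | zero => simp
  | succ k ih =>
    have h1 : Even (2 * k) := even_two_mul k
    have h2 : ¬ Even (2 * k + 1) := by
      rw [Nat.not_even_iff_odd]; exact odd_two_mul_add_one k
    rw [show 2 * (k + 1) = 2 * k + 1 + 1 by ring, Finset.prod_range_succ, Finset.prod_range_succ,
      ih, if_pos h1, if_neg h2, pow_succ]
    ring

open Classical in
theorem prod_parity (a b : ℝ[X]) : ∏ p : Crown n, (if Odd p then b else a) = (a * b) ^ n := by
  rw [← prod_crown, ← prod_range_alt a b n]
  refine Finset.prod_congr rfl fun j hj => ?_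
  rw [Finset.mem_range] at hj
  by_cases h : Even j
  · have : ¬ Odd (j : Crown n) := by
      rw [odd_iff, cval_cast_of_lt hj, Nat.not_odd_iff_even]; exact h
    rw [if_neg this, if_pos h]
  · have : Odd (j : Crown n) := by
      rw [odd_iff, cval_cast_of_lt hj, ← Nat.not_even_iff_odd]; exact h
    rw [if_pos this, if_neg h]

/-- the constant pattern -/
def pat0 : Pat n := fun _ => (F, true)

omit [NeZero n] in
theorem goodAll_pat0 (Q : Crown n → Prop) : GoodAll Q (pat0 : Pat n) := by
  refine ⟨fun _ => rfl, fun p h => ?_⟩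
  simp [pat0] at h

theorem starts_pat0 : starts (pat0 : Pat n) = ∅ := by
  ext q
  simp [mem_starts, pat0]

omit [NeZero n] in
theorem eq_pat0_iff {π : Pat n} : π = pat0 ↔ ∀ p, (π p).1 = F ∧ (π p).2 = true := by
  constructor
  · rintro rfl p; exact ⟨rfl, rfl⟩
  · intro h
    funext p
    exact Prod.ext (h p).1 (h p).2

omit [NeZero n] in
theorem bad_iff {π : Pat n} : Bad π ↔ π ≠ pat0 ∧
    (GoodAll (fun p => Odd p) π ∨ GoodAll (fun p => ¬ Odd p) π) := by
  unfold Bad GoodAll
  rw [Ne, eq_pat0_iff]
  constructor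
  · rintro ⟨h1, ⟨q, hq⟩, h3⟩
    refine ⟨fun h => ?_, ?_⟩
    · rw [(h q).2] at hq; exact absurd hq (by decide)
    · rcases h3 with h3 | h3
      · exact Or.inl ⟨h1, h3⟩
      · exact Or.inr ⟨h1, h3⟩
  · rintro ⟨h1, h2⟩
    have hF : ∀ p, (π p).1 = F := by rcases h2 with h2 | h2 <;> exact h2.1
    refine ⟨hF, ?_, ?_⟩
    · by_contra hcon
      push Not at hcon
      exact h1 fun p => ⟨hF p, by simpa using hcon p⟩
    · rcases h2 with h2 | h2
      · exact Or.inl h2.2
      · exact Or.inr h2.2

open Classical in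
/-- The face polynomial. -/
theorem sum_faces : ∑ π ∈ Finset.univ.filter (fun π : Pat n => Valid π ∧ ¬ Bad π),
    (X : ℝ[X]) ^ (Module.finrank ℝ (Kp π)) = crownPoly n := by
  -- split off the constant pattern
  have h0 : (pat0 : Pat n) ∈ Finset.univ.filter (fun π : Pat n => Valid π ∧ ¬ Bad π) := by
    rw [Finset.mem_filter]
    refine ⟨Finset.mem_univ _, (goodAll_pat0 fun _ => True).valid, ?_⟩
    rw [bad_iff]; exact fun h => h.1 rfl
  have h1 : ∑ π ∈ Finset.univ.filter (fun π : Pat n => Valid π ∧ ¬ Bad π),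
      (X : ℝ[X]) ^ (Module.finrank ℝ (Kp π)) =
      ∑ π ∈ Finset.univ.filter (fun π : Pat n => Valid π ∧ ¬ Bad π),
        ((X : ℝ[X]) ^ (starts π).card + if π = pat0 then X - 1 else 0) := by
    refine Finset.sum_congr rfl fun π hπ => ?_
    rw [Finset.mem_filter] at hπ
    by_cases h : π = pat0
    · rw [if_pos h, finrank_Kp_const (eq_pat0_iff.1 h), h, starts_pat0]
      simp
    · rw [if_neg h, add_zero, finrank_Kp hπ.2.1 (fun h' => h (eq_pat0_iff.2 h'))]
  rw [h1, Finset.sum_add_distrib, Finset.sum_ite_eq', if_pos h0]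
  -- valid = (valid and not bad) + bad
  have h2 : ∑ π ∈ Finset.univ.filter (fun π : Pat n => Valid π), (X : ℝ[X]) ^ (starts π).card =
      ∑ π ∈ Finset.univ.filter (fun π : Pat n => Valid π ∧ ¬ Bad π), (X : ℝ[X]) ^ (starts π).card +
      ∑ π ∈ Finset.univ.filter (fun π : Pat n => Bad π), (X : ℝ[X]) ^ (starts π).card := by
    rw [← Finset.sum_filter_add_sum_filter_not (Finset.univ.filter (fun π : Pat n => Valid π))
      (fun π => ¬ Bad π), Finset.filter_filter, Finset.filter_filter]
    congr 1
    refine Finset.sum_congr ?_ fun _ _ => rfl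
    ext π
    simp only [Finset.mem_filter, Finset.mem_univ, true_and, not_not]
    refine ⟨fun h => h.2, fun h => ⟨?_, h⟩⟩
    rcases (bad_iff.1 h).2 with h | h <;> exact h.valid
  -- bad = badU + badD
  have h3 : ∀ Q : Crown n → Prop,
      ∑ π ∈ Finset.univ.filter (fun π : Pat n => GoodAll Q π), (X : ℝ[X]) ^ (starts π).card =
      1 + ∑ π ∈ Finset.univ.filter (fun π : Pat n => π ≠ pat0 ∧ GoodAll Q π),
        (X : ℝ[X]) ^ (starts π).card := by
    intro Q
    have hm : (pat0 : Pat n) ∈ Finset.univ.filter (fun π : Pat n => GoodAll Q π) := by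
      rw [Finset.mem_filter]; exact ⟨Finset.mem_univ _, goodAll_pat0 Q⟩
    rw [← Finset.add_sum_erase _ _ hm, starts_pat0]
    congr 1
    refine Finset.sum_congr ?_ fun _ _ => rfl
    ext π
    simp only [Finset.mem_filter, Finset.mem_univ, true_and, Finset.mem_erase]
  have h4 : ∑ π ∈ Finset.univ.filter (fun π : Pat n => Bad π), (X : ℝ[X]) ^ (starts π).card =
      ∑ π ∈ Finset.univ.filter (fun π : Pat n => π ≠ pat0 ∧ GoodAll (fun p => Odd p) π),
        (X : ℝ[X]) ^ (starts π).card +
      ∑ π ∈ Finset.univ.filter (fun π : Pat n => π ≠ pat0 ∧ GoodAll (fun p => ¬ Odd p) π),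
        (X : ℝ[X]) ^ (starts π).card := by
    rw [← Finset.sum_union]
    · refine Finset.sum_congr ?_ fun _ _ => rfl
      ext π
      simp only [Finset.mem_filter, Finset.mem_univ, true_and, Finset.mem_union]
      rw [bad_iff, and_or_left]
    · rw [Finset.disjoint_left]
      intro π ha hb
      simp only [Finset.mem_filter, Finset.mem_univ, true_and] at ha hb
      apply ha.1
      rw [eq_pat0_iff]
      intro p
      refine ⟨ha.2.1 p, ?_⟩
      by_contra hcon
      have hf : (π p).2 = false := by simpa using hcon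
      exact hb.2.2 p hf (ha.2.2 p hf)
  have h5 := h3 fun p => Odd p
  have h6 := h3 fun p => ¬ Odd p
  rw [sum_goodAll] at h5 h6
  have h7 : ∏ p : Crown n, (if Odd p then (1 + X : ℝ[X]) else 1) = (1 + X) ^ n := by
    rw [prod_parity, one_mul]
  have h8 : ∏ p : Crown n, (if ¬ Odd p then (1 + X : ℝ[X]) else 1) = (1 + X) ^ n := by
    have : ∀ p : Crown n, (if ¬ Odd p then (1 + X : ℝ[X]) else 1) = if Odd p then 1 else 1 + X := by
      intro p; split_ifs <;> simp_all
    rw [Finset.prod_congr rfl fun p _ => this p, prod_parity, mul_one]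
  rw [h7] at h5
  have h9 : (1 + X : ℝ[X]) ^ n = 1 + ∑ π ∈ Finset.univ.filter
      (fun π : Pat n => π ≠ pat0 ∧ GoodAll (fun p => ¬ Odd p) π), (X : ℝ[X]) ^ (starts π).card := by
    rw [← h6, ← h8]
    refine Finset.prod_congr rfl fun p _ => ?_
    by_cases hp : Odd p <;> simp [hp]
  rw [sum_valid] at h2
  unfold crownPoly
  have e : (X + 1 : ℝ[X]) = 1 + X := by ring
  rw [e] at *
  linear_combination -h2 - h4 + h5 + h9

end Pool.Agent.CrownPoset
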