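import Pool.Agent.CrownPoset.Defs

/-!
# Cyclic structure of the crown
-/

namespace Pool.Agent.CrownPoset

open Crown

variable {n : ℕ} [NeZero n]

instance : Fintype (Crown n) := inferInstanceAs (Fintype (ZMod (2 * n)))
instance : DecidableEq (Crown n) := inferInstanceAs (DecidableEq (ZMod (2 * n)))

/-- representative in `[0, 2n)` -/
def cval (a : Crown n) : ℕ := ZMod.val (n := 2 * n) a

theorem cval_lt (a : Crown n) : cval a < 2 * n := ZMod.val_lt (n := 2 * n) a

omit [NeZero n] in
theorem cval_zero : cval (0 : Crown n) = 0 := ZMod.val_zero (n := 2 * n)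

omit [NeZero n] in
theorem cval_eq_zero {a : Crown n} : cval a = 0 ↔ a = 0 := ZMod.val_eq_zero (n := 2 * n) a

theorem cast_cval (a : Crown n) : ((cval a : ℕ) : Crown n) = a := ZMod.natCast_zmod_val (n := 2 * n) a

omit [NeZero n] in
theorem cval_cast_of_lt {k : ℕ} (h : k < 2 * n) : cval ((k : ℕ) : Crown n) = k :=
  ZMod.val_natCast_of_lt (n := 2 * n) h

omit [NeZero n] in
theorem cast_two_mul : ((2 * n : ℕ) : Crown n) = 0 := ZMod.natCast_self (2 * n)

theorem cval_add_one {a : Crown n} (h : a + 1 ≠ 0) : cval (a + 1) = cval a + 1 := by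
  have h1 : ((cval a + 1 : ℕ) : Crown n) = a + 1 := by
    push_cast
    rw [cast_cval]
  have h2 : cval a + 1 < 2 * n := by
    have := cval_lt a
    rcases Nat.lt_or_ge (cval a + 1) (2 * n) with h3 | h3
    · exact h3
    · exfalso
      apply h
      have : cval a + 1 = 2 * n := by omega
      rw [← h1, this, cast_two_mul]
  rw [← h1, cval_cast_of_lt h2]

theorem cval_of_add_one_eq_zero {a : Crown n} (h : a + 1 = 0) : cval a + 1 = 2 * n := by
  have h1 : ((cval a + 1 : ℕ) : Crown n) = 0 := by
    push_cast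
    rw [cast_cval, h]
  by_contra hcon
  have h2 : cval a + 1 < 2 * n := by
    have := cval_lt a
    omega
  have h3 := cval_cast_of_lt h2
  rw [h1, cval_zero] at h3
  omega

theorem odd_iff {a : Crown n} : Odd a ↔ Odd (cval a) := by
  constructor
  · intro h
    have h1 := par_of_odd h
    have h2 : par n a = ((cval a : ℕ) : ZMod 2) := by
      conv_lhs => rw [← cast_cval a]
      exact map_natCast _ _
    rw [h2] at h1
    rw [← Nat.not_even_iff_odd]
    intro h3
    have : ((cval a : ℕ) : ZMod 2) = 0 := (ZMod.natCast_eq_zero_iff_even).2 h3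
    rw [this] at h1
    exact absurd h1 (by decide)
  · rintro ⟨k, hk⟩
    refine ⟨(k : Crown n), ?_⟩
    have := cast_cval a
    rw [hk] at this
    rw [← this]; push_cast; ring

theorem odd_add_one_of_not {a : Crown n} (h : ¬ Odd a) : Odd (a + 1) := by
  rw [odd_iff] at h ⊢
  rw [Nat.not_odd_iff_even] at h
  by_cases h0 : a + 1 = 0
  · have := cval_of_add_one_eq_zero h0
    exfalso
    obtain ⟨c, hc⟩ := h
    omega
  · rw [cval_add_one h0]
    exact h.add_one

theorem odd_add_one_iff {a : Crown n} : Odd (a + 1) ↔ ¬ Odd a :=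
  ⟨fun h h' => not_odd_add_one h' h, odd_add_one_of_not⟩

omit [NeZero n] in
theorem not_odd_sub_one' {a : Crown n} (h : Odd a) : ¬ Odd (a - 1) := not_odd_sub_one h

/-- Reindexing of sums over the crown by `range (2n)`. -/
theorem sum_crown {M : Type*} [AddCommMonoid M] (f : Crown n → M) (r : Crown n) :
    ∑ k ∈ Finset.range (2 * n), f (r + (k : Crown n)) = ∑ p, f p := by
  refine Finset.sum_nbij' (fun k => r + (k : Crown n)) (fun p => cval (p - r)) ?_ ?_ ?_ ?_ ?_
  · intro k _; exact Finset.mem_univ _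
  · intro p _; exact Finset.mem_range.2 (cval_lt _)
  · intro k hk
    rw [Finset.mem_range] at hk
    simp only [add_sub_cancel_left]
    exact cval_cast_of_lt hk
  · intro p _
    rw [cast_cval]; ring
  · intro k _; rfl

theorem prod_crown {M : Type*} [CommMonoid M] (f : Crown n → M) :
    ∏ k ∈ Finset.range (2 * n), f (k : Crown n) = ∏ p, f p := by
  refine Finset.prod_nbij' (fun k => (k : Crown n)) (fun p => cval p) ?_ ?_ ?_ ?_ ?_
  · intro k _; exact Finset.mem_univ _
  · intro p _; exact Finset.mem_range.2 (cval_lt _)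
  · intro k hk
    rw [Finset.mem_range] at hk
    exact cval_cast_of_lt hk
  · intro p _
    exact cast_cval p
  · intro k _; rfl

/-- Potentials on the cycle. -/
theorem exists_potential (σ : Crown n → ℝ) (r : Crown n) :
    ∃ h : Crown n → ℝ, (∀ p, p + 1 ≠ r → h (p + 1) = h p + σ p) ∧
      ((∑ p, σ p) = 0 → ∀ p, h (p + 1) = h p + σ p) := by
  refine ⟨fun p => ∑ k ∈ Finset.range (cval (p - r)), σ (r + (k : Crown n)), ?_⟩
  have key : ∀ p, p + 1 ≠ r → (∑ k ∈ Finset.range (cval (p + 1 - r)), σ (r + (k : Crown n))) =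
      (∑ k ∈ Finset.range (cval (p - r)), σ (r + (k : Crown n))) + σ p := by
    intro p hp
    have h1 : p + 1 - r = (p - r) + 1 := by ring
    have h2 : (p - r) + 1 ≠ 0 := by
      rw [← h1]; exact sub_ne_zero.2 hp
    rw [h1, cval_add_one h2, Finset.sum_range_succ, cast_cval]
    congr 2
    ring
  refine ⟨key, fun hσ p => ?_⟩
  by_cases hp : p + 1 = r
  · have h1 : p + 1 - r = 0 := sub_eq_zero.2 hp
    have h2 : (p - r) + 1 = 0 := by rw [← h1]; ring
    have h3 := cval_of_add_one_eq_zero h2
    simp only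
    rw [h1, cval_zero, Finset.range_zero, Finset.sum_empty]
    have h4 := sum_crown σ r
    rw [hσ, ← h3, Finset.sum_range_succ, cast_cval] at h4
    have h5 : r + (p - r) = p := by ring
    rw [h5] at h4
    exact h4.symm
  · exact key p hp

end Pool.Agent.CrownPoset
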