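import Mathlib

/-!
# Definitions: crown posets, order polytopes and face numbers
-/

namespace Pool.Agent.CrownPoset

/-- The ground set of the crown poset `C_{2n}`.  The element `i ∈ {1, …, 2n}` is represented by its
residue modulo `2n` (so `2n` is represented by `0`, and `2n+1` is read as `1`). -/
def Crown (n : ℕ) : Type := ZMod (2 * n)

namespace Crown

variable (n : ℕ)

instance : CommRing (Crown n) := inferInstanceAs (CommRing (ZMod (2 * n)))

/-- reduction modulo two -/
def par : Crown n →+* ZMod 2 := ZMod.castHom (Dvd.intro n rfl) (ZMod 2)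

variable {n}

theorem par_of_odd {a : Crown n} (h : Odd a) : par n a = 1 := by
  obtain ⟨m, rfl⟩ := h
  have h2 : (2 : ZMod 2) = 0 := by decide
  rw [map_add, map_mul, map_ofNat, map_one, h2]
  simp

theorem not_odd_add_one {a : Crown n} (h : Odd a) : ¬ Odd (a + 1) := by
  intro h'
  have h1 := par_of_odd h
  have h2 := par_of_odd h'
  rw [map_add, h1, map_one] at h2
  exact absurd h2 (by decide)

theorem not_odd_sub_one {a : Crown n} (h : Odd a) : ¬ Odd (a - 1) := by
  intro h'
  have h1 := par_of_odd h
  have h2 := par_of_odd h'
  rw [map_sub, h1, map_one] at h2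
  exact absurd h2 (by decide)

/-- The order of the crown poset: `a ≤ b` iff `a = b`, or `a` is odd and `b` is one of its two cyclic
neighbours `a + 1`, `a - 1`.  So the odd elements are minimal and the covering pairs are
`2j-1 ≺ 2j` and `2j+1 ≺ 2j` (indices read modulo `2n`). -/
instance : PartialOrder (Crown n) where
  le a b := a = b ∨ (Odd a ∧ (b = a + 1 ∨ b = a - 1))
  le_refl a := Or.inl rfl
  le_trans a b c hab hbc := by
    rcases hab with rfl | ⟨ha, hb⟩
    · exact hbc
    · rcases hbc with rfl | ⟨hb', _⟩
      · exact Or.inr ⟨ha, hb⟩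
      · exfalso
        rcases hb with rfl | rfl
        · exact not_odd_add_one ha hb'
        · exact not_odd_sub_one ha hb'
  le_antisymm a b hab hba := by
    rcases hab with rfl | ⟨ha, hb⟩
    · rfl
    · rcases hba with rfl | ⟨hb', _⟩
      · rfl
      · exfalso
        rcases hb with rfl | rfl
        · exact not_odd_add_one ha hb'
        · exact not_odd_sub_one ha hb'

theorem le_def {a b : Crown n} : a ≤ b ↔ (a = b ∨ (Odd a ∧ (b = a + 1 ∨ b = a - 1))) := Iff.rfl

end Crown

/-- The order polytope of a poset `P`: all `x ∈ [0,1]^P` with `x a ≤ x b` whenever `a ≤ b`. -/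
def orderPolytope (P : Type*) [PartialOrder P] : Set (P → ℝ) :=
  {x | (∀ a, 0 ≤ x a ∧ x a ≤ 1) ∧ ∀ a b, a ≤ b → x a ≤ x b}

open Classical in
/-- The dimension of a convex set `F`: the dimension of its affine span, where the empty set has
dimension `-1`. -/
noncomputable def faceDim {E : Type*} [AddCommGroup E] [Module ℝ E] (F : Set E) : ℤ :=
  if F = ∅ then -1 else (Module.finrank ℝ (vectorSpan ℝ F) : ℤ)

/-- The number of `k`-dimensional faces of a polytope `Q`.  The faces are the exposed faces: the empty
set, and the sets of maximisers over `Q` of a (continuous) linear functional, `Q` itself included. -/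
noncomputable def faceNumber {E : Type*} [AddCommGroup E] [Module ℝ E] [TopologicalSpace E]
    (Q : Set E) (k : ℤ) : ℕ :=
  Set.ncard {F : Set E | IsExposed ℝ Q F ∧ faceDim F = k}

end Pool.Agent.CrownPoset
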