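import Pool.Agent.CrownPoset.Defs

/-!
# Exposed faces of a polyhedron given by finitely many linear inequalities
-/

namespace Pool.Agent.CrownPoset

open Filter Topology

section Faces

variable {E : Type*} [NormedAddCommGroup E] [NormedSpace ℝ E] {I : Type*} [Finite I]

/-- polyhedron -/
def polyh (A : I → StrongDual ℝ E) (b : I → ℝ) : Set E := {x | ∀ i, A i x ≤ b i}

/-- set of tight constraints -/
def tight (A : I → StrongDual ℝ E) (b : I → ℝ) (x : E) : Set I := {i | A i x = b i}

/-- face cut out by a set of tight constraints -/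
def tface (A : I → StrongDual ℝ E) (b : I → ℝ) (S : Set I) : Set E :=
  {x | x ∈ polyh A b ∧ ∀ i ∈ S, A i x = b i}

/-- direction space -/
def kerT (A : I → StrongDual ℝ E) (S : Set I) : Submodule ℝ E where
  carrier := {v | ∀ i ∈ S, A i v = 0}
  zero_mem' := by intro i _; simp
  add_mem' := by
    intro a b ha hb i hi
    rw [map_add, ha i hi, hb i hi, add_zero]
  smul_mem' := by
    intro c a ha i hi
    rw [map_smul, ha i hi, smul_zero]

variable {A : I → StrongDual ℝ E} {b : I → ℝ}

omit [Finite I] in
theorem mem_kerT {S : Set I} {v : E} : v ∈ kerT A S ↔ ∀ i ∈ S, A i v = 0 := Iff.rfl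

omit [Finite I] in
theorem mem_tface_self {x : E} (hx : x ∈ polyh A b) : x ∈ tface A b (tight A b x) :=
  ⟨hx, fun _ hi => hi⟩

theorem exists_eps {x v : E} (hx : x ∈ polyh A b) (hv : ∀ i ∈ tight A b x, A i v = 0) :
    ∃ ε : ℝ, 0 < ε ∧ x + ε • v ∈ polyh A b := by
  have key : ∀ i, ∀ᶠ ε : ℝ in 𝓝[>] 0, A i (x + ε • v) ≤ b i := by
    intro i
    by_cases hi : A i x = b i
    · filter_upwards with ε
      rw [map_add, map_smul, hv i hi, hi]; simp
    · have hlt : A i x < b i := lt_of_le_of_ne (hx i) hi
      have hc : Continuous fun ε : ℝ => A i (x + ε • v) := by fun_prop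
      have h0 : A i (x + (0 : ℝ) • v) < b i := by simpa using hlt
      have := (hc.tendsto 0).eventually (gt_mem_nhds h0)
      have h2 : ∀ᶠ ε : ℝ in 𝓝[>] 0, A i (x + ε • v) < b i := nhdsWithin_le_nhds this
      filter_upwards [h2] with ε hε using hε.le
  have hall : ∀ᶠ ε : ℝ in 𝓝[>] 0, ∀ i, A i (x + ε • v) ≤ b i := eventually_all.2 key
  have hpos : ∀ᶠ ε : ℝ in 𝓝[>] 0, 0 < ε := self_mem_nhdsWithin
  obtain ⟨ε, h1, h2⟩ := (hall.and hpos).exists
  exact ⟨ε, h2, h1⟩

theorem isExposed_tface {x : E} (hx : x ∈ polyh A b) :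
    IsExposed ℝ (polyh A b) (tface A b (tight A b x)) := by
  classical
  have := Fintype.ofFinite I
  intro _
  refine ⟨∑ i ∈ Finset.univ.filter (fun i => A i x = b i), A i, ?_⟩
  have hsum : ∀ z : E, (∑ i ∈ Finset.univ.filter (fun i => A i x = b i), A i) z =
      ∑ i ∈ Finset.univ.filter (fun i => A i x = b i), A i z := by
    intro z; simp
  have hle : ∀ z ∈ polyh A b, ∑ i ∈ Finset.univ.filter (fun i => A i x = b i), A i z ≤
      ∑ i ∈ Finset.univ.filter (fun i => A i x = b i), b i :=
    fun z hz => Finset.sum_le_sum fun i _ => hz i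
  ext y
  constructor
  · rintro ⟨hy, hT⟩
    refine ⟨hy, fun z hz => ?_⟩
    rw [hsum, hsum]
    refine (hle z hz).trans (le_of_eq ?_)
    refine Finset.sum_congr rfl fun i hi => ?_
    have hi' : A i x = b i := by simpa using hi
    exact (hT i hi').symm
  · rintro ⟨hy, hmax⟩
    refine ⟨hy, ?_⟩
    have h1 := hmax x hx
    rw [hsum, hsum] at h1
    have h2 : ∑ i ∈ Finset.univ.filter (fun i => A i x = b i), A i x =
        ∑ i ∈ Finset.univ.filter (fun i => A i x = b i), b i :=
      Finset.sum_congr rfl fun i hi => by simpa using hi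
    rw [h2] at h1
    have h3 : ∑ i ∈ Finset.univ.filter (fun i => A i x = b i), A i y =
        ∑ i ∈ Finset.univ.filter (fun i => A i x = b i), b i := le_antisymm (hle y hy) h1
    have h4 := (Finset.sum_eq_sum_iff_of_le (fun i _ => hy i)).1 h3
    intro i hi
    have hi' : A i x = b i := hi
    exact h4 i (by simpa using hi')

theorem exists_of_isExposed {F : Set E} (hF : IsExposed ℝ (polyh A b) F) (hne : F.Nonempty) :
    ∃ x ∈ polyh A b, F = tface A b (tight A b x) := by
  classical
  obtain ⟨l, hl⟩ := hF hne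
  have hFQ : ∀ y ∈ F, y ∈ polyh A b := fun y hy => by rw [hl] at hy; exact hy.1
  have hFm : ∀ y ∈ F, ∀ z ∈ polyh A b, l z ≤ l y := fun y hy => by rw [hl] at hy; exact hy.2
  obtain ⟨x, hxF, hmin⟩ := (measure (fun x : E => (tight A b x).ncard)).wf.has_min F hne
  refine ⟨x, hFQ x hxF, ?_⟩
  ext y
  constructor
  · intro hy
    refine ⟨hFQ y hy, ?_⟩
    set z : E := (1 / 2 : ℝ) • x + (1 / 2 : ℝ) • y with hz
    have hzA : ∀ i, A i z = (A i x + A i y) / 2 := by
      intro i; rw [hz, map_add, map_smul, map_smul]; simp only [smul_eq_mul]; ring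
    have hzQ : z ∈ polyh A b := by
      intro i; rw [hzA i]
      have h1 := hFQ x hxF i
      have h2 := hFQ y hy i
      linarith
    have hzF : z ∈ F := by
      rw [hl]
      refine ⟨hzQ, fun w hw => ?_⟩
      have h1 := hFm x hxF w hw
      have h2 := hFm y hy w hw
      have h3 : l z = (l x + l y) / 2 := by
        rw [hz, map_add, map_smul, map_smul]; simp only [smul_eq_mul]; ring
      rw [h3]; linarith
    have hsub : tight A b z ⊆ tight A b x := by
      intro i hi
      have h0 : A i z = b i := hi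
      have h1 := hFQ x hxF i
      have h2 := hFQ y hy i
      have h3 := hzA i
      show A i x = b i
      linarith
    have hcard : ¬ (tight A b z).ncard < (tight A b x).ncard := hmin z hzF
    have heq : tight A b z = tight A b x :=
      Set.eq_of_subset_of_ncard_le hsub (not_lt.1 hcard) (Set.toFinite _)
    intro i hi
    rw [← heq] at hi
    have h0 : A i z = b i := hi
    have h1 := hFQ x hxF i
    have h2 := hFQ y hy i
    have h3 := hzA i
    linarith
  · rintro ⟨hyQ, hyT⟩
    have hxQ := hFQ x hxF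
    obtain ⟨ε, hε, hmem⟩ := exists_eps (A := A) (b := b) (x := x) (v := x - y) hxQ (by
      intro i hi
      have h1 : A i x = b i := hi
      have h2 := hyT i hi
      rw [map_sub]; linarith)
    have h1 := hFm x hxF _ hmem
    rw [map_add, map_smul, map_sub, smul_eq_mul] at h1
    have h2 : l x ≤ l y := by
      have : ε * (l x - l y) ≤ 0 := by linarith
      by_contra hcon
      have : 0 < ε * (l x - l y) := mul_pos hε (by linarith)
      linarith
    rw [hl]
    exact ⟨hyQ, fun w hw => (hFm x hxF w hw).trans h2⟩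

theorem vectorSpan_tface {x : E} (hx : x ∈ polyh A b) :
    vectorSpan ℝ (tface A b (tight A b x)) = kerT A (tight A b x) := by
  apply le_antisymm
  · rw [vectorSpan_def, Submodule.span_le]
    rintro _ ⟨y, hy, z, hz, rfl⟩
    intro i hi
    simp only [vsub_eq_sub, map_sub, hy.2 i hi, hz.2 i hi, sub_self]
  · intro v hv
    obtain ⟨ε, hε, hmem⟩ := exists_eps (A := A) (b := b) hx hv
    have h1 : x + ε • v ∈ tface A b (tight A b x) := by
      refine ⟨hmem, fun i hi => ?_⟩
      have : A i x = b i := hi
      rw [map_add, map_smul, hv i hi, this]; simp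
    have h2 : (x + ε • v) -ᵥ x ∈ vectorSpan ℝ (tface A b (tight A b x)) :=
      vsub_mem_vectorSpan ℝ h1 (mem_tface_self hx)
    rw [vsub_eq_sub, add_sub_cancel_left] at h2
    have h3 := Submodule.smul_mem _ ε⁻¹ h2
    rwa [smul_smul, inv_mul_cancel₀ hε.ne', one_smul] at h3

theorem tface_injOn {x y : E} (hx : x ∈ polyh A b) (hy : y ∈ polyh A b)
    (h : tface A b (tight A b x) = tface A b (tight A b y)) : tight A b x = tight A b y := by
  apply Set.Subset.antisymm
  · have : y ∈ tface A b (tight A b x) := h ▸ mem_tface_self hy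
    exact fun i hi => this.2 i hi
  · have : x ∈ tface A b (tight A b y) := h ▸ mem_tface_self hx
    exact fun i hi => this.2 i hi

/-- The nonempty faces of a given dimension, counted through any pattern map `π` that has the same
fibres as the tight-set map. -/
theorem faceNumber_polyh {P : Type*} (pat : E → P)
    (hpat : ∀ x ∈ polyh A b, ∀ y ∈ polyh A b, pat x = pat y ↔ tight A b x = tight A b y) (k : ℕ) :
    faceNumber (polyh A b) (k : ℤ) =
      Set.ncard {p : P | ∃ x ∈ polyh A b, pat x = p ∧
        Module.finrank ℝ (kerT A (tight A b x)) = k} := by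
  classical
  unfold faceNumber
  symm
  refine Set.ncard_congr (fun p hp => tface A b (tight A b hp.choose)) ?_ ?_ ?_
  · intro p hp
    obtain ⟨hx, _, hk⟩ := hp.choose_spec
    refine ⟨isExposed_tface hx, ?_⟩
    have hne : tface A b (tight A b hp.choose) ≠ ∅ :=
      Set.Nonempty.ne_empty ⟨_, mem_tface_self hx⟩
    rw [faceDim, if_neg hne, vectorSpan_tface hx, hk]
  · intro p q hp hq h
    obtain ⟨hx, hpx, _⟩ := hp.choose_spec
    obtain ⟨hy, hqy, _⟩ := hq.choose_spec
    rw [← hpx, ← hqy]
    exact (hpat _ hx _ hy).2 (tface_injOn hx hy h)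
  · rintro F ⟨hF, hdim⟩
    have hne : F.Nonempty := by
      by_contra hcon
      rw [Set.not_nonempty_iff_eq_empty] at hcon
      rw [faceDim, if_pos hcon] at hdim
      omega
    obtain ⟨x, hx, hFx⟩ := exists_of_isExposed hF hne
    have hdim' : Module.finrank ℝ (kerT A (tight A b x)) = k := by
      rw [faceDim, if_neg hne.ne_empty, hFx, vectorSpan_tface hx] at hdim
      exact_mod_cast hdim
    have hp : ∃ y ∈ polyh A b, pat y = pat x ∧ Module.finrank ℝ (kerT A (tight A b y)) = k :=
      ⟨x, hx, rfl, hdim'⟩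
    refine ⟨pat x, hp, ?_⟩
    obtain ⟨hy, hyx, _⟩ := hp.choose_spec
    have := (hpat _ hy _ hx).1 hyx
    show tface A b (tight A b hp.choose) = F
    rw [this, ← hFx]

/-- There is exactly one face of dimension `-1`, the empty one. -/
theorem faceNumber_neg_one (Q : Set E) : faceNumber Q (-1) = 1 := by
  classical
  unfold faceNumber
  have : {F : Set E | IsExposed ℝ Q F ∧ faceDim F = -1} = {∅} := by
    ext F
    constructor
    · rintro ⟨_, h⟩
      by_contra hne
      have hne' : F ≠ ∅ := hne
      rw [faceDim, if_neg hne'] at h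
      omega
    · intro h
      have hF : F = ∅ := h
      subst hF
      refine ⟨fun h => absurd h Set.not_nonempty_empty, ?_⟩
      rw [faceDim, if_pos rfl]
  rw [this, Set.ncard_singleton]

end Faces

end Pool.Agent.CrownPoset
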