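import Pool.Agent.CrownPoset.ULC

/-!
# The polynomials `Lam n` and their factorisation
-/

namespace Pool.Agent.CrownPoset

open Polynomial

/-- `Lam n (x) = a^n + a^(-n)` where `a + a⁻¹ = x + 3`. -/
noncomputable def Lam : ℕ → ℝ[X]
  | 0 => 2
  | 1 => X + 3
  | (n + 2) => (X + 3) * Lam (n + 1) - Lam n

theorem Lam_eval (x a : ℝ) (ha : a ≠ 0) (hx : a + a⁻¹ = x + 3) (n : ℕ) :
    (Lam n).eval x = a ^ n + a⁻¹ ^ n := by
  induction n using Nat.strong_induction_on with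
  | _ n ih =>
    match n, ih with
    | 0, _ => simp [Lam]; norm_num
    | 1, _ => simp [Lam]; linarith
    | (n + 2), ih =>
      have h1 := ih (n + 1) (by omega)
      have h0 := ih n (by omega)
      simp only [Lam, eval_sub, eval_mul, eval_add, eval_X, eval_ofNat, h1, h0]
      have hx' : x + 3 = a + a⁻¹ := hx.symm
      rw [hx']
      have : a * a⁻¹ = 1 := mul_inv_cancel₀ ha
      have h2 : (a + a⁻¹) * (a ^ (n + 1) + a⁻¹ ^ (n + 1)) =
          a ^ (n + 2) + a⁻¹ ^ (n + 2) + (a * a⁻¹) * (a ^ n + a⁻¹ ^ n) := by ring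
      rw [h2, this]; ring

/-- the multiset of (negated) roots of `Lam n - 2` -/
noncomputable def rootsM (n : ℕ) : Multiset ℝ :=
  (nthRootsFinset n (1 : ℂ)).val.map fun ζ => 3 - 2 * ζ.re

theorem norm_of_mem_nthRoots {n : ℕ} (hn : 0 < n) {ζ : ℂ} (h : ζ ∈ nthRootsFinset n (1 : ℂ)) :
    ‖ζ‖ = 1 := by
  rw [mem_nthRootsFinset hn] at h
  exact Complex.norm_eq_one_of_pow_eq_one h hn.ne'

theorem one_le_of_mem_rootsM {n : ℕ} (hn : 0 < n) {r : ℝ} (hr : r ∈ rootsM n) : 1 ≤ r := by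
  unfold rootsM at hr
  rw [Multiset.mem_map] at hr
  obtain ⟨ζ, hζ, rfl⟩ := hr
  have h1 := norm_of_mem_nthRoots hn (by simpa using hζ)
  have h2 := Complex.re_le_norm ζ
  rw [h1] at h2
  linarith

theorem card_rootsM {n : ℕ} (hn : 0 < n) : (rootsM n).card = n := by
  unfold rootsM
  rw [Multiset.card_map]
  have := (Complex.isPrimitiveRoot_exp n hn.ne').card_nthRootsFinset
  simpa using this

theorem eval_linProd (R : Multiset ℝ) (x : ℝ) :
    (linProd R).eval x = (R.map fun r => x + r).prod := by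
  induction R using Multiset.induction_on with
  | empty => simp [linProd]
  | cons r R ih => rw [linProd_cons]; simp [ih]

theorem prod_identity {n : ℕ} (hn : 0 < n) (a : ℂ) (ha : a ≠ 0) :
    a ^ n + a⁻¹ ^ n - 2 = ∏ ζ ∈ nthRootsFinset n (1 : ℂ), (a + a⁻¹ - 2 * (ζ.re : ℂ)) := by
  have hprim := Complex.isPrimitiveRoot_exp n hn.ne'
  have h1 := hprim.pow_sub_pow_eq_prod_sub_mul a 1 hn
  have h2 := hprim.pow_sub_pow_eq_prod_sub_mul 1 a⁻¹ hn
  have h3 : ∏ ζ ∈ nthRootsFinset n (1 : ℂ), (1 - ζ * a⁻¹) =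
      ∏ ζ ∈ nthRootsFinset n (1 : ℂ), (1 - ζ⁻¹ * a⁻¹) := by
    refine Finset.prod_nbij' (fun ζ => ζ⁻¹) (fun ζ => ζ⁻¹) ?_ ?_ ?_ ?_ ?_
    · intro ζ hζ
      rw [mem_nthRootsFinset hn] at hζ ⊢
      rw [inv_pow, hζ, inv_one]
    · intro ζ hζ
      rw [mem_nthRootsFinset hn] at hζ ⊢
      rw [inv_pow, hζ, inv_one]
    · intro ζ _; exact inv_inv ζ
    · intro ζ _; exact inv_inv ζ
    · intro ζ _; rw [inv_inv]
  have h4 : a ^ n + a⁻¹ ^ n - 2 = -((a ^ n - 1 ^ n) * (1 ^ n - a⁻¹ ^ n)) * (-1) := by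
    have : a ^ n * a⁻¹ ^ n = 1 := by rw [← mul_pow, mul_inv_cancel₀ ha, one_pow]
    rw [one_pow]
    linear_combination this
  rw [h4, h1, h2, h3]
  rw [neg_mul_neg, mul_one, ← Finset.prod_mul_distrib]
  refine Finset.prod_congr rfl fun ζ hζ => ?_
  have hnorm := norm_of_mem_nthRoots hn hζ
  have hζ0 : ζ ≠ 0 := by
    intro h; rw [h, norm_zero] at hnorm; exact zero_ne_one hnorm
  have hinv : ζ⁻¹ = (starRingEnd ℂ) ζ := by
    rw [Complex.inv_def, Complex.normSq_eq_norm_sq, hnorm]; simp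
  have hre : ζ + ζ⁻¹ = 2 * (ζ.re : ℂ) := by
    rw [hinv, Complex.add_conj]; push_cast; ring
  have e1 : ζ * ζ⁻¹ = 1 := mul_inv_cancel₀ hζ0
  have e2 : a * a⁻¹ = 1 := mul_inv_cancel₀ ha
  linear_combination (-1 : ℂ) * hre - (ζ⁻¹) * e2 + a⁻¹ * e1

theorem Lam_sub_two {n : ℕ} (hn : 0 < n) : Lam n - 2 = linProd (rootsM n) := by
  refine Polynomial.eq_of_infinite_eval_eq _ _ (Set.Infinite.mono ?_ (Set.Ioi_infinite (0 : ℝ)))
  intro x hx
  have hx0 : 0 < x := hx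
  show (Lam n - 2).eval x = (linProd (rootsM n)).eval x
  set s := Real.sqrt ((x + 3) ^ 2 - 4) with hs
  have hs2 : s ^ 2 = (x + 3) ^ 2 - 4 := Real.sq_sqrt (by nlinarith)
  have hs0 : 0 ≤ s := Real.sqrt_nonneg _
  set a := ((x + 3) + s) / 2 with ha
  have ha0 : 0 < a := by rw [ha]; linarith
  have hinv : a⁻¹ = ((x + 3) - s) / 2 := by
    apply inv_eq_of_mul_eq_one_right
    rw [ha]
    linear_combination (-1 / 4 : ℝ) * hs2
  have hx3 : a + a⁻¹ = x + 3 := by rw [hinv, ha]; ring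
  rw [eval_sub, Lam_eval x a ha0.ne' hx3, eval_linProd]
  rw [eval_ofNat]
  have key := prod_identity hn (a : ℂ) (by exact_mod_cast ha0.ne')
  have : ((a ^ n + a⁻¹ ^ n - 2 : ℝ) : ℂ) =
      ((∏ ζ ∈ nthRootsFinset n (1 : ℂ), (a + a⁻¹ - 2 * ζ.re) : ℝ) : ℂ) := by
    push_cast
    rw [key]
  have h2 := Complex.ofReal_injective this
  rw [h2]
  unfold rootsM
  rw [Multiset.map_map]
  refine Finset.prod_congr rfl fun ζ _ => ?_
  simp only [Function.comp]
  rw [hx3]; ring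

end Pool.Agent.CrownPoset
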