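import Pool.Agent.CrownPoset.Lam

/-!
# Log-concavity of the coefficients of `2 + X + (X+1)^n (Lam n - 2)`
-/

namespace Pool.Agent.CrownPoset

open Polynomial

/-- all `2n` negated roots -/
noncomputable def rootsAll (n : ℕ) : Multiset ℝ := Multiset.replicate n 1 + rootsM n

theorem one_le_of_mem_rootsAll {n : ℕ} (hn : 0 < n) {r : ℝ} (hr : r ∈ rootsAll n) : 1 ≤ r := by
  unfold rootsAll at hr
  rw [Multiset.mem_add] at hr
  rcases hr with h | h
  · exact (Multiset.eq_of_mem_replicate h).ge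
  · exact one_le_of_mem_rootsM hn h

theorem card_rootsAll {n : ℕ} (hn : 0 < n) : (rootsAll n).card = 2 * n := by
  unfold rootsAll
  rw [Multiset.card_add, Multiset.card_replicate, card_rootsM hn]; ring

theorem linProd_rootsAll {n : ℕ} (hn : 0 < n) :
    linProd (rootsAll n) = (X + 1) ^ n * (Lam n - 2) := by
  rw [Lam_sub_two hn]
  unfold rootsAll linProd
  rw [Multiset.map_add, Multiset.prod_add, Multiset.map_replicate, Multiset.prod_replicate, C_1]

/-- The polynomial whose coefficients are `f_0, f_1, …, f_{2n}`. -/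
noncomputable def crownPoly (n : ℕ) : ℝ[X] := 2 + X + (X + 1) ^ n * (Lam n - 2)

theorem Lam_zero_growth (n : ℕ) :
    (2 : ℝ) * n + 1 ≤ (Lam (n + 1)).coeff 0 - 0 ∧
      2 ≤ (Lam (n + 2)).coeff 0 - (Lam (n + 1)).coeff 0 := by
  have hrec : ∀ n, (Lam (n + 2)).coeff 0 = 3 * (Lam (n + 1)).coeff 0 - (Lam n).coeff 0 := by
    intro n
    have h3 : ((3 : ℝ[X])).coeff 0 = 3 := by
      have : (3 : ℝ[X]) = C 3 := (map_ofNat C 3).symm
      rw [this, coeff_C_zero]
    simp only [Lam, coeff_sub, mul_coeff_zero, coeff_add, coeff_X_zero, h3, zero_add]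
  have h0 : (Lam 0).coeff 0 = 2 := by
    have : (2 : ℝ[X]) = C 2 := (map_ofNat C 2).symm
    rw [Lam, this, coeff_C_zero]
  have h1 : (Lam 1).coeff 0 = 3 := by
    have : (3 : ℝ[X]) = C 3 := (map_ofNat C 3).symm
    rw [Lam, coeff_add, this, coeff_C_zero, coeff_X_zero, zero_add]
  induction n with
  | zero =>
    have := hrec 0
    rw [h0, h1] at this
    constructor
    · rw [zero_add, h1]; norm_num
    · rw [zero_add, zero_add, this, h1]; norm_num
  | succ n ih =>
    have h2 := hrec (n + 1)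
    have h3 : ((n + 1 : ℕ) : ℝ) = n + 1 := by push_cast; ring
    obtain ⟨ih1, ih2⟩ := ih
    have hn : (0 : ℝ) ≤ n := Nat.cast_nonneg n
    constructor
    · rw [h3, show n + 1 + 1 = n + 2 from rfl]; linarith
    · rw [show n + 1 + 2 = (n + 1) + 2 from rfl, h2, show n + 1 + 1 = n + 2 from rfl]; linarith

theorem ulc_coeff {p : ℝ[X]} (h : ULC p) (i : ℕ) :
    ((i : ℝ) + 2) * (p.coeff i * p.coeff (i + 2)) ≤ ((i : ℝ) + 1) * p.coeff (i + 1) ^ 2 := by
  have h1 := h.2 i i le_rfl
  unfold nc at h1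
  rw [Nat.factorial_succ (i + 1), Nat.factorial_succ i] at h1
  push_cast at h1
  have hf : (0 : ℝ) < i.factorial := by exact_mod_cast Nat.factorial_pos i
  have hi : (0 : ℝ) < (i : ℝ) + 1 := by positivity
  have h2 : (i.factorial : ℝ) * (i.factorial : ℝ) * ((i : ℝ) + 1) *
      (((i : ℝ) + 2) * (p.coeff i * p.coeff (i + 2))) ≤
      (i.factorial : ℝ) * (i.factorial : ℝ) * ((i : ℝ) + 1) *
      (((i : ℝ) + 1) * p.coeff (i + 1) ^ 2) := by nlinarith [h1]
  exact le_of_mul_le_mul_left h2 (by positivity)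

theorem crown_coeff (n : ℕ) (hn : 0 < n) (k : ℕ) : (crownPoly n).coeff k =
    (if k = 0 then 2 else if k = 1 then 1 else 0) + (linProd (rootsAll n)).coeff k := by
  unfold crownPoly
  rw [linProd_rootsAll hn, coeff_add, coeff_add, coeff_X]
  have : (2 : ℝ[X]) = C 2 := (map_ofNat C 2).symm
  rw [this, coeff_C]
  rcases k with _ | _ | k
  · simp
  · simp
  · simp

theorem crown_pos (n : ℕ) (hn : 0 < n) (k : ℕ) (hk : k ≤ 2 * n) : 0 < (crownPoly n).coeff k := by
  rw [crown_coeff n hn]
  have := linProd_coeff_pos (rootsAll n) (fun r hr => one_le_of_mem_rootsAll hn hr) k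
    (by rw [card_rootsAll hn]; exact hk)
  split_ifs <;> linarith

/-- the inequality at `k = 0`, where `f_{-1} = 1` -/
theorem crown_lc_zero (n : ℕ) (hn : 0 < n) :
    1 * (crownPoly n).coeff 1 ≤ (crownPoly n).coeff 0 ^ 2 := by
  have hR : ∀ r ∈ rootsAll n, 1 ≤ r := fun r hr => one_le_of_mem_rootsAll hn hr
  rw [crown_coeff n hn, crown_coeff n hn]
  have h1 := linProd_coeff_one_le (rootsAll n) hR
  have h0 := (le_linProd_coeff_one (rootsAll n) hR).2
  rw [card_rootsAll hn] at h1
  have hg : 2 * (n : ℝ) - 1 ≤ (linProd (rootsAll n)).coeff 0 + 2 := by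
    have h2 : (linProd (rootsAll n)).coeff 0 = (Lam n).coeff 0 - 2 := by
      rw [linProd_rootsAll hn, mul_coeff_zero, coeff_sub]
      have e : (2 : ℝ[X]) = C 2 := (map_ofNat C 2).symm
      have e2 : ((X + 1 : ℝ[X]) ^ n).coeff 0 = 1 := by
        rw [coeff_zero_eq_eval_zero]; simp
      rw [e, coeff_C_zero, e2, one_mul]
    obtain ⟨m, rfl⟩ : ∃ m, n = m + 1 := ⟨n - 1, by omega⟩
    have h3 := (Lam_zero_growth m).1
    rw [h2]; push_cast
    linarith
  simp only [if_true, one_ne_zero, if_false]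
  generalize (linProd (rootsAll n)).coeff 0 = p0 at *
  generalize (linProd (rootsAll n)).coeff 1 = p1 at *
  push_cast at h1
  nlinarith

theorem crown_lc (n : ℕ) (hn : 0 < n) (k : ℕ) :
    (crownPoly n).coeff k * (crownPoly n).coeff (k + 2) ≤ (crownPoly n).coeff (k + 1) ^ 2 := by
  have hR : ∀ r ∈ rootsAll n, 1 ≤ r := fun r hr => one_le_of_mem_rootsAll hn hr
  have hR0 : ∀ r ∈ rootsAll n, 0 ≤ r := fun r hr => zero_le_one.trans (hR r hr)
  have hU := ulc_linProd (rootsAll n) hR0
  have hnn : ∀ j, 0 ≤ (linProd (rootsAll n)).coeff j := by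
    intro j
    have := hU.1 j
    unfold nc at this
    have hf : (0 : ℝ) < j.factorial := by exact_mod_cast Nat.factorial_pos j
    exact (mul_nonneg_iff_of_pos_left hf).1 this
  have hc := ulc_coeff hU k
  have h0 := (le_linProd_coeff_one (rootsAll n) hR).2
  have h1 := (le_linProd_coeff_one (rootsAll n) hR).1
  rw [card_rootsAll hn] at h1
  rw [crown_coeff n hn, crown_coeff n hn, crown_coeff n hn]
  have a0 := hnn k
  have a1 := hnn (k + 1)
  have a2 := hnn (k + 2)
  rcases k with _ | _ | k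
  · -- (2 + p0) * p2 ≤ (1 + p1)^2
    simp only [zero_add, if_true, one_ne_zero, if_false, show (2 : ℕ) ≠ 0 by norm_num,
      show (2 : ℕ) ≠ 1 by norm_num, Nat.cast_zero] at *
    have h1' : (2 : ℝ) ≤ (linProd (rootsAll n)).coeff 1 := by
      have : (1 : ℝ) ≤ n := by exact_mod_cast hn
      push_cast at h1; linarith
    -- need p0 ≥ 2 or direct
    rcases Nat.lt_or_ge 1 n with hn2 | hn1
    · have hp0 : 2 ≤ (linProd (rootsAll n)).coeff 0 := by
        have h2 : (linProd (rootsAll n)).coeff 0 = (Lam n).coeff 0 - 2 := by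
          rw [linProd_rootsAll hn, mul_coeff_zero, coeff_sub]
          have e : (2 : ℝ[X]) = C 2 := (map_ofNat C 2).symm
          have e2 : ((X + 1 : ℝ[X]) ^ n).coeff 0 = 1 := by
            rw [coeff_zero_eq_eval_zero]; simp
          rw [e, coeff_C_zero, e2, one_mul]
        obtain ⟨m, rfl⟩ : ∃ m, n = m + 2 := ⟨n - 2, by omega⟩
        have h3 := (Lam_zero_growth (m + 1)).1
        have h4 := (Lam_zero_growth m).2
        have h5 := (Lam_zero_growth m).1
        rw [h2]
        push_cast at h3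
        have hm : (0 : ℝ) ≤ m := Nat.cast_nonneg m
        rw [show m + 1 + 1 = m + 2 from rfl] at h3
        rcases m with _ | m
        · -- n = 2 : Lam 2 at zero is 7
          have hrec : (Lam 2).coeff 0 = 3 * (Lam 1).coeff 0 - (Lam 0).coeff 0 := by
            have h3 : ((3 : ℝ[X])).coeff 0 = 3 := by
              have : (3 : ℝ[X]) = C 3 := (map_ofNat C 3).symm
              rw [this, coeff_C_zero]
            simp only [Lam, coeff_sub, mul_coeff_zero, coeff_add, coeff_X_zero, h3, zero_add]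
          have e0 : (Lam 0).coeff 0 = 2 := by
            have : (2 : ℝ[X]) = C 2 := (map_ofNat C 2).symm
            rw [Lam, this, coeff_C_zero]
          have e1 : (Lam 1).coeff 0 = 3 := by
            have : (3 : ℝ[X]) = C 3 := (map_ofNat C 3).symm
            rw [Lam, coeff_add, this, coeff_C_zero, coeff_X_zero, zero_add]
          rw [zero_add, hrec, e0, e1]; norm_num
        · push_cast at *
          have hm' : (0 : ℝ) ≤ m := Nat.cast_nonneg m
          linarith
      generalize (linProd (rootsAll n)).coeff 0 = p0 at *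
      generalize (linProd (rootsAll n)).coeff 1 = p1 at *
      generalize (linProd (rootsAll n)).coeff 2 = p2 at *
      nlinarith [mul_le_mul_of_nonneg_right hp0 a2]
    · have hn' : n = 1 := by omega
      subst hn'
      have hcard := card_rootsAll (n := 1) one_pos
      have hp2 : (linProd (rootsAll 1)).coeff 2 ≤ 1 := by
        rw [linProd_rootsAll one_pos]
        have : (X + 1 : ℝ[X]) ^ 1 * (Lam 1 - 2) = X ^ 2 + C 2 * X + C 1 := by
          simp only [Lam, C_1]
          have : (C 2 : ℝ[X]) = 2 := map_ofNat C 2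
          rw [this]; ring
        rw [this]
        simp [coeff_X, coeff_one]
      have : (2 : ℝ) ≤ (linProd (rootsAll 1)).coeff 1 := h1'
      generalize (linProd (rootsAll 1)).coeff 0 = p0 at *
      generalize (linProd (rootsAll 1)).coeff 1 = p1 at *
      generalize (linProd (rootsAll 1)).coeff 2 = p2 at *
      nlinarith
  · -- (1 + p1) * p3 ≤ p2^2
    simp only [zero_add, if_true, one_ne_zero, if_false, Nat.reduceAdd, Nat.cast_one,
      show (2 : ℕ) ≠ 0 by norm_num, show (3 : ℕ) ≠ 0 by norm_num, show (3 : ℕ) ≠ 1 by norm_num,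
      show (2 : ℕ) ≠ 1 by norm_num] at *
    have h1' : (2 : ℝ) ≤ (linProd (rootsAll n)).coeff 1 := by
      have : (1 : ℝ) ≤ n := by exact_mod_cast hn
      push_cast at h1; linarith
    generalize (linProd (rootsAll n)).coeff 1 = p1 at *
    generalize (linProd (rootsAll n)).coeff 2 = p2 at *
    generalize (linProd (rootsAll n)).coeff 3 = p3 at *
    nlinarith [mul_le_mul_of_nonneg_right h1' a2]
  · have e1 : k + 1 + 1 ≠ 0 := by omega
    have e2 : k + 1 + 1 ≠ 1 := by omega
    have e3 : k + 1 + 1 + 2 ≠ 0 := by omega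
    have e4 : k + 1 + 1 + 2 ≠ 1 := by omega
    have e5 : k + 1 + 1 + 1 ≠ 0 := by omega
    have e6 : k + 1 + 1 + 1 ≠ 1 := by omega
    simp only [e1, e2, e3, e4, e5, e6, if_false, zero_add]
    have hk : (0 : ℝ) ≤ ((k + 1 + 1 : ℕ) : ℝ) := Nat.cast_nonneg _
    have h3 : 0 ≤ (linProd (rootsAll n)).coeff (k + 1 + 1) *
      (linProd (rootsAll n)).coeff (k + 1 + 1 + 2) := mul_nonneg a0 a2
    generalize ((k + 1 + 1 : ℕ) : ℝ) = t at *
    generalize (linProd (rootsAll n)).coeff (k + 1 + 1) *
      (linProd (rootsAll n)).coeff (k + 1 + 1 + 2) = u at *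
    generalize (linProd (rootsAll n)).coeff (k + 1 + 1 + 1) ^ 2 = v at *
    have h4 : (t + 1) * u ≤ (t + 1) * v := by nlinarith
    exact le_of_mul_le_mul_left h4 (by linarith)

end Pool.Agent.CrownPoset
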