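import Pool.Agent.CrownPoset.Cyc
import Pool.Agent.CrownPoset.Faces

/-!
# Patterns of points of the order polytope of the crown
-/

namespace Pool.Agent.CrownPoset

open Crown

/-- status of a coordinate: zero, free, one -/
inductive St | Z | F | O
  deriving DecidableEq

open St

instance : Fintype St := ⟨{Z, F, O}, by intro x; cases x <;> decide⟩

/-- status of a real number -/
noncomputable def st (r : ℝ) : St := if r = 0 then Z else if r = 1 then O else F

theorem st_eq_Z {r : ℝ} : st r = Z ↔ r = 0 := by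
  unfold st
  split_ifs with h1 h2 <;> simp [h1]

theorem st_eq_O {r : ℝ} : st r = O ↔ r = 1 := by
  unfold st
  split_ifs with h1 h2
  · simp [h1]
  · simp [h2]
  · simp [h2]

theorem st_eq_F {r : ℝ} : st r = F ↔ r ≠ 0 ∧ r ≠ 1 := by
  unfold st
  split_ifs with h1 h2
  · simp [h1]
  · simp [h2]
  · simp [h1, h2]

/-- Patterns: a status for each element, and a mark (equal or not) for each cyclic edge `p → p+1`. -/
abbrev Pat (n : ℕ) : Type := Crown n → St × Bool

variable {n : ℕ} [NeZero n]

/-- pattern of a point -/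
noncomputable def pat (x : Crown n → ℝ) : Pat n := fun p => (st (x p), decide (x p = x (p + 1)))

/-- index set of the constraints -/
abbrev Idx (n : ℕ) : Type := Crown n ⊕ Crown n ⊕ Crown n

open Classical in
/-- constraint functionals -/
noncomputable def cA : Idx n → StrongDual ℝ (Crown n → ℝ)
  | Sum.inl p => -(ContinuousLinearMap.proj (R := ℝ) (φ := fun _ : Crown n => ℝ) p)
  | Sum.inr (Sum.inl p) => ContinuousLinearMap.proj (R := ℝ) (φ := fun _ : Crown n => ℝ) p
  | Sum.inr (Sum.inr p) =>
      if Odd p then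
        ContinuousLinearMap.proj (R := ℝ) (φ := fun _ : Crown n => ℝ) p -
          ContinuousLinearMap.proj (R := ℝ) (φ := fun _ : Crown n => ℝ) (p + 1)
      else
        ContinuousLinearMap.proj (R := ℝ) (φ := fun _ : Crown n => ℝ) (p + 1) -
          ContinuousLinearMap.proj (R := ℝ) (φ := fun _ : Crown n => ℝ) p

/-- constraint right-hand sides -/
def cb : Idx n → ℝ
  | Sum.inl _ => 0
  | Sum.inr (Sum.inl _) => 1
  | Sum.inr (Sum.inr _) => 0

omit [NeZero n] in
theorem cA_inl (p : Crown n) (x : Crown n → ℝ) : cA (Sum.inl p) x = - x p := by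
  simp [cA]

omit [NeZero n] in
theorem cA_inr_inl (p : Crown n) (x : Crown n → ℝ) : cA (Sum.inr (Sum.inl p)) x = x p := by
  simp [cA]

omit [NeZero n] in
theorem cA_odd {p : Crown n} (hp : Odd p) (x : Crown n → ℝ) :
    cA (Sum.inr (Sum.inr p)) x = x p - x (p + 1) := by
  simp [cA, hp]

omit [NeZero n] in
theorem cA_not_odd {p : Crown n} (hp : ¬ Odd p) (x : Crown n → ℝ) :
    cA (Sum.inr (Sum.inr p)) x = x (p + 1) - x p := by
  simp only [cA, if_neg hp]
  simp

theorem mem_orderPolytope {x : Crown n → ℝ} : x ∈ orderPolytope (Crown n) ↔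
    (∀ p, 0 ≤ x p ∧ x p ≤ 1) ∧ (∀ p, Odd p → x p ≤ x (p + 1)) ∧
      (∀ p, ¬ Odd p → x (p + 1) ≤ x p) := by
  constructor
  · rintro ⟨h1, h2⟩
    refine ⟨h1, fun p hp => h2 _ _ (Or.inr ⟨hp, Or.inl rfl⟩), fun p hp => h2 _ _ (Or.inr ⟨?_, ?_⟩)⟩
    · exact odd_add_one_of_not hp
    · exact Or.inr (by ring)
  · rintro ⟨h1, h2, h3⟩
    refine ⟨h1, ?_⟩
    rintro a b (rfl | ⟨ha, rfl | rfl⟩)
    · exact le_rfl
    · exact h2 a ha
    · have := h3 (a - 1) (not_odd_sub_one ha)
      rwa [sub_add_cancel] at this

theorem orderPolytope_eq : orderPolytope (Crown n) = polyh (cA (n := n)) cb := by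
  ext x
  rw [mem_orderPolytope]
  constructor
  · rintro ⟨h1, h2, h3⟩
    rintro (p | p | p)
    · rw [cA_inl]; simp only [cb]; linarith [(h1 p).1]
    · rw [cA_inr_inl]; exact (h1 p).2
    · by_cases hp : Odd p
      · rw [cA_odd hp]; simp only [cb]; linarith [h2 p hp]
      · rw [cA_not_odd hp]; simp only [cb]; linarith [h3 p hp]
  · intro h
    refine ⟨fun p => ⟨?_, ?_⟩, fun p hp => ?_, fun p hp => ?_⟩
    · have := h (Sum.inl p)
      rw [cA_inl] at this; simp only [cb] at this; linarith
    · have := h (Sum.inr (Sum.inl p))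
      rw [cA_inr_inl] at this; exact this
    · have := h (Sum.inr (Sum.inr p))
      rw [cA_odd hp] at this; simp only [cb] at this; linarith
    · have := h (Sum.inr (Sum.inr p))
      rw [cA_not_odd hp] at this; simp only [cb] at this; linarith

theorem mem_tight_inl {x : Crown n → ℝ} {p : Crown n} :
    Sum.inl p ∈ tight cA cb x ↔ x p = 0 := by
  show cA (Sum.inl p) x = cb (Sum.inl p) ↔ _
  rw [cA_inl]; simp [cb]

theorem mem_tight_inr_inl {x : Crown n → ℝ} {p : Crown n} :
    Sum.inr (Sum.inl p) ∈ tight cA cb x ↔ x p = 1 := by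
  show cA (Sum.inr (Sum.inl p)) x = cb (Sum.inr (Sum.inl p)) ↔ _
  rw [cA_inr_inl]; simp [cb]

theorem mem_tight_inr_inr {x : Crown n → ℝ} {p : Crown n} :
    Sum.inr (Sum.inr p) ∈ tight cA cb x ↔ x p = x (p + 1) := by
  show cA (Sum.inr (Sum.inr p)) x = cb (Sum.inr (Sum.inr p)) ↔ _
  by_cases hp : Odd p
  · rw [cA_odd hp]; simp only [cb]; exact sub_eq_zero
  · rw [cA_not_odd hp]; simp only [cb]; rw [sub_eq_zero, eq_comm]

theorem pat_eq_iff (x y : Crown n → ℝ) : pat x = pat y ↔ tight cA cb x = tight cA cb y := by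
  constructor
  · intro h
    ext i
    rcases i with p | p | p
    · rw [mem_tight_inl, mem_tight_inl, ← st_eq_Z, ← st_eq_Z]
      have := congrArg Prod.fst (congrFun h p)
      simp only [pat] at this
      rw [this]
    · rw [mem_tight_inr_inl, mem_tight_inr_inl, ← st_eq_O, ← st_eq_O]
      have := congrArg Prod.fst (congrFun h p)
      simp only [pat] at this
      rw [this]
    · rw [mem_tight_inr_inr, mem_tight_inr_inr]
      have := congrArg Prod.snd (congrFun h p)
      simp only [pat, decide_eq_decide] at this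
      exact this
  · intro h
    funext p
    have h1 : x p = 0 ↔ y p = 0 := by rw [← mem_tight_inl, ← mem_tight_inl, h]
    have h2 : x p = 1 ↔ y p = 1 := by rw [← mem_tight_inr_inl, ← mem_tight_inr_inl, h]
    have h3 : x p = x (p + 1) ↔ y p = y (p + 1) := by
      rw [← mem_tight_inr_inr, ← mem_tight_inr_inr, h]
    simp only [pat, Prod.mk.injEq, decide_eq_decide]
    refine ⟨?_, h3⟩
    unfold st
    simp only [h1, h2]

/-- the direction space attached to a pattern -/
def Kp (π : Pat n) : Submodule ℝ (Crown n → ℝ) where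
  carrier := {v | ∀ p, ((π p).1 ≠ F → v p = 0) ∧ ((π p).2 = true → v p = v (p + 1))}
  zero_mem' := by intro p; simp
  add_mem' := by
    intro a b ha hb p
    refine ⟨fun h => ?_, fun h => ?_⟩
    · simp [(ha p).1 h, (hb p).1 h]
    · simp only [Pi.add_apply, (ha p).2 h, (hb p).2 h]
  smul_mem' := by
    intro c a ha p
    refine ⟨fun h => ?_, fun h => ?_⟩
    · simp [(ha p).1 h]
    · simp only [Pi.smul_apply, (ha p).2 h]

omit [NeZero n] in
theorem mem_Kp {π : Pat n} {v : Crown n → ℝ} :
    v ∈ Kp π ↔ ∀ p, ((π p).1 ≠ F → v p = 0) ∧ ((π p).2 = true → v p = v (p + 1)) := Iff.rfl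

theorem kerT_eq (x : Crown n → ℝ) : kerT cA (tight cA cb x) = Kp (pat x) := by
  ext v
  rw [mem_kerT, mem_Kp]
  constructor
  · intro h p
    simp only [pat, decide_eq_true_eq]
    refine ⟨fun h1 => ?_, fun h1 => ?_⟩
    · rw [Ne, st_eq_F, not_and_or, not_not, not_not] at h1
      rcases h1 with h1 | h1
      · have := h _ (mem_tight_inl.2 h1)
        rw [cA_inl] at this; linarith
      · have := h _ (mem_tight_inr_inl.2 h1)
        rwa [cA_inr_inl] at this
    · have := h _ (mem_tight_inr_inr.2 h1)
      by_cases hp : Odd p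
      · rw [cA_odd hp] at this; linarith
      · rw [cA_not_odd hp] at this; linarith
  · rintro h (p | p | p) hi
    · rw [mem_tight_inl] at hi
      have := (h p).1 (by simp only [pat]; rw [Ne, st_eq_F, hi]; simp)
      rw [cA_inl, this, neg_zero]
    · rw [mem_tight_inr_inl] at hi
      have := (h p).1 (by simp only [pat]; rw [Ne, st_eq_F, hi]; simp)
      rw [cA_inr_inl, this]
    · rw [mem_tight_inr_inr] at hi
      have := (h p).2 (by simp only [pat]; simpa using hi)
      by_cases hp : Odd p
      · rw [cA_odd hp, this, sub_self]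
      · rw [cA_not_odd hp, this, sub_self]

/-- local validity: status of the smaller element, mark, status of the larger element -/
def okU : St → Bool → St → Bool
  | Z, true, Z => true
  | Z, false, F => true
  | Z, false, O => true
  | F, true, F => true
  | F, false, F => true
  | F, false, O => true
  | O, true, O => true
  | _, _, _ => false

/-- locally valid patterns -/
def Valid (π : Pat n) : Prop :=
  ∀ p, (Odd p → okU (π p).1 (π p).2 (π (p + 1)).1 = true) ∧
    (¬ Odd p → okU (π (p + 1)).1 (π p).2 (π p).1 = true)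

/-- the all-free patterns which go around the cycle in one direction -/
def Bad (π : Pat n) : Prop :=
  (∀ p, (π p).1 = F) ∧ (∃ p, (π p).2 = false) ∧
    ((∀ p, (π p).2 = false → Odd p) ∨ (∀ p, (π p).2 = false → ¬ Odd p))

theorem okU_of_le {a b : ℝ} (ha : 0 ≤ a) (hab : a ≤ b) (hb : b ≤ 1) :
    okU (st a) (decide (a = b)) (st b) = true := by
  by_cases h : a = b
  · subst h
    simp only [decide_true]
    cases st a <;> rfl
  · have hlt : a < b := lt_of_le_of_ne hab h
    have h1 : a ≠ 1 := by linarith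
    have h2 : b ≠ 0 := by linarith
    simp only [h, decide_false]
    have e1 : st a ≠ O := fun e => h1 (st_eq_O.1 e)
    have e2 : st b ≠ Z := fun e => h2 (st_eq_Z.1 e)
    revert e1 e2
    cases st a <;> cases st b <;> simp [okU]

theorem valid_pat {x : Crown n → ℝ} (hx : x ∈ orderPolytope (Crown n)) : Valid (pat x) := by
  rw [mem_orderPolytope] at hx
  obtain ⟨h1, h2, h3⟩ := hx
  intro p
  refine ⟨fun hp => ?_, fun hp => ?_⟩
  · exact okU_of_le (h1 p).1 (h2 p hp) (h1 _).2
  · have := okU_of_le (h1 (p + 1)).1 (h3 p hp) (h1 p).2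
    simp only [pat]
    have e : decide (x p = x (p + 1)) = decide (x (p + 1) = x p) := by
      rw [decide_eq_decide]; exact eq_comm
    rw [e]; exact this

theorem sum_shift (x : Crown n → ℝ) : ∑ p, (x (p + 1) - x p) = 0 := by
  rw [Finset.sum_sub_distrib, sub_eq_zero]
  exact Fintype.sum_equiv (Equiv.addRight 1) _ _ fun _ => rfl

theorem not_bad_pat {x : Crown n → ℝ} (hx : x ∈ orderPolytope (Crown n)) : ¬ Bad (pat x) := by
  rw [mem_orderPolytope] at hx
  obtain ⟨h1, h2, h3⟩ := hx
  rintro ⟨_, ⟨q, hq⟩, h | h⟩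
  · have hnn : ∀ p ∈ Finset.univ, 0 ≤ x (p + 1) - x p := by
      intro p _
      by_cases hp : x p = x (p + 1)
      · rw [hp, sub_self]
      · have := h2 p (h p (by simp only [pat]; simpa using hp))
        linarith
    have := (Finset.sum_eq_zero_iff_of_nonneg hnn).1 (sum_shift x) q (Finset.mem_univ _)
    simp only [pat, decide_eq_false_iff_not] at hq
    exact hq (by linarith)
  · have hnn : ∀ p ∈ Finset.univ, 0 ≤ -(x (p + 1) - x p) := by
      intro p _
      by_cases hp : x p = x (p + 1)
      · rw [hp, sub_self, neg_zero]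
      · have := h3 p (h p (by simp only [pat]; simpa using hp))
        linarith
    have h0 : ∑ p, -(x (p + 1) - x p) = 0 := by
      rw [Finset.sum_neg_distrib, sum_shift, neg_zero]
    have := (Finset.sum_eq_zero_iff_of_nonneg hnn).1 h0 q (Finset.mem_univ _)
    simp only [pat, decide_eq_false_iff_not] at hq
    exact hq (by linarith)

end Pool.Agent.CrownPoset
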