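import Pool.Agent.CrownPoset.Transfer
import Pool.Agent.CrownPoset.LogConc
import Pool.Agent.CrownPoset.Pattern

/-!
# The transfer matrices and their trace
-/

namespace Pool.Agent.CrownPoset

open Crown St Polynomial

/-- weight of an edge whose first element is the smaller one -/
noncomputable def wU (s : St) (e : Bool) (t : St) : ℝ[X] :=
  if okU s e t = true then (if t = F ∧ e = false then X else 1) else 0

/-- weight of an edge whose second element is the smaller one -/
noncomputable def wD (s : St) (e : Bool) (t : St) : ℝ[X] :=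
  if okU t e s = true then (if t = F ∧ e = false then X else 1) else 0

/-- transfer matrix entries -/
noncomputable def mU (s t : St) : ℝ[X] := ∑ e : Bool, wU s e t
/-- transfer matrix entries -/
noncomputable def mD (s t : St) : ℝ[X] := ∑ e : Bool, wD s e t

theorem univ_St : (Finset.univ : Finset St) = {Z, F, O} := rfl

theorem sum_St {M : Type*} [AddCommMonoid M] (f : St → M) : ∑ s, f s = f Z + (f F + f O) := by
  rw [univ_St, Finset.sum_insert (by decide), Finset.sum_insert (by decide), Finset.sum_singleton]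

/-- the product of the two transfer matrices, explicitly -/
noncomputable def mDU : St → St → ℝ[X]
  | Z, Z => 1
  | Z, F => X
  | Z, O => 1
  | F, Z => 1
  | F, F => X + (X + 1) ^ 2
  | F, O => X + 2
  | O, Z => 1
  | O, F => X * (X + 2)
  | O, O => X + 2

theorem mU_val : mU Z Z = 1 ∧ mU Z F = X ∧ mU Z O = 1 ∧ mU F Z = 0 ∧ mU F F = 1 + X ∧ mU F O = 1 ∧
    mU O Z = 0 ∧ mU O F = 0 ∧ mU O O = 1 := by
  refine ⟨?_, ?_, ?_, ?_, ?_, ?_, ?_, ?_, ?_⟩ <;>
    rw [mU, Fintype.sum_bool] <;> simp [wU, okU]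

theorem mD_val : mD Z Z = 1 ∧ mD Z F = 0 ∧ mD Z O = 0 ∧ mD F Z = 1 ∧ mD F F = 1 + X ∧ mD F O = 0 ∧
    mD O Z = 1 ∧ mD O F = X ∧ mD O O = 1 := by
  refine ⟨?_, ?_, ?_, ?_, ?_, ?_, ?_, ?_, ?_⟩ <;>
    rw [mD, Fintype.sum_bool] <;> simp [wD, okU]

theorem mul_eq : Matrix.of mD * Matrix.of mU = Matrix.of mDU := by
  obtain ⟨u1, u2, u3, u4, u5, u6, u7, u8, u9⟩ := mU_val
  obtain ⟨d1, d2, d3, d4, d5, d6, d7, d8, d9⟩ := mD_val
  ext1 i j
  rw [Matrix.mul_apply, sum_St]
  cases i <;> cases j <;>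
    simp only [Matrix.of_apply, u1, u2, u3, u4, u5, u6, u7, u8, u9, d1, d2, d3, d4, d5, d6, d7, d8,
      d9, mDU] <;> ring

theorem cayley : Matrix.of mDU ^ 3 = (1 + (X + 1) * (X + 3) : ℝ[X]) • Matrix.of mDU ^ 2 -
    ((X + 1) * (X + 3) + (X + 1) ^ 2 : ℝ[X]) • Matrix.of mDU + ((X + 1) ^ 2 : ℝ[X]) • 1 := by
  ext1 i j
  rw [pow_succ, pow_two]
  simp only [Matrix.add_apply, Matrix.sub_apply, Matrix.smul_apply, Matrix.mul_apply, sum_St,
    Matrix.of_apply, smul_eq_mul]
  cases i <;> cases j <;> simp [mDU, Matrix.one_apply] <;> ring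

theorem trace_rec (k : ℕ) : (Matrix.of mDU ^ (k + 3)).trace =
    (1 + (X + 1) * (X + 3)) * (Matrix.of mDU ^ (k + 2)).trace -
      ((X + 1) * (X + 3) + (X + 1) ^ 2 : ℝ[X]) * (Matrix.of mDU ^ (k + 1)).trace +
      ((X + 1) ^ 2 : ℝ[X]) * (Matrix.of mDU ^ k).trace := by
  have h : Matrix.of mDU ^ (k + 3) = (1 + (X + 1) * (X + 3) : ℝ[X]) • Matrix.of mDU ^ (k + 2) -
    ((X + 1) * (X + 3) + (X + 1) ^ 2 : ℝ[X]) • Matrix.of mDU ^ (k + 1) +
      ((X + 1) ^ 2 : ℝ[X]) • Matrix.of mDU ^ k := by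
    rw [pow_add, cayley, mul_add, mul_sub, Matrix.mul_smul, Matrix.mul_smul, Matrix.mul_smul,
      mul_one, ← pow_add, ← pow_succ]
  rw [h, Matrix.trace_add, Matrix.trace_sub, Matrix.trace_smul, Matrix.trace_smul,
    Matrix.trace_smul, smul_eq_mul, smul_eq_mul, smul_eq_mul]

theorem trace_eq (n : ℕ) : (Matrix.of mDU ^ n).trace = 1 + (X + 1) ^ n * Lam n := by
  induction n using Nat.strong_induction_on with
  | _ n ih =>
    match n, ih with
    | 0, _ =>
      rw [pow_zero, Matrix.trace_one]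
      have : Fintype.card St = 3 := rfl
      rw [this]; simp [Lam]; norm_num
    | 1, _ =>
      rw [pow_one, Matrix.trace, sum_St]
      simp only [Matrix.diag, Matrix.of_apply, mDU, Lam]
      ring
    | 2, _ =>
      rw [pow_two, Matrix.trace, sum_St]
      simp only [Matrix.diag, Matrix.of_apply, Matrix.mul_apply, sum_St, mDU, Lam]
      ring
    | (k + 3), ih =>
      rw [trace_rec, ih (k + 2) (by omega), ih (k + 1) (by omega), ih k (by omega)]
      simp only [Lam]
      ring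

end Pool.Agent.CrownPoset
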