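import Mathlib

/-!
# Cyclic sums of products as traces
-/

namespace Pool.Agent.CrownPoset

open Matrix

variable {S R : Type*} [Fintype S] [DecidableEq S] [CommRing R]

/-- ordered matrix product `M 0 * M 1 * … * M (k-1)` -/
def prodM (M : ℕ → S → S → R) : ℕ → Matrix S S R
  | 0 => 1
  | (k + 1) => prodM M k * Matrix.of (M k)

theorem path_sum (M : ℕ → S → S → R) (k : ℕ) (g : S → S → R) :
    ∑ s : Fin (k + 1) → S, (∏ i : Fin k, M i (s i.castSucc) (s i.succ)) * g (s 0) (s (Fin.last k)) =
      ∑ i, ∑ j, prodM M k i j * g i j := by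
  induction k generalizing g with
  | zero =>
    simp only [Finset.univ_eq_empty, Finset.prod_empty, one_mul, prodM, Matrix.one_apply, ite_mul,
      zero_mul, Finset.sum_ite_eq, Finset.mem_univ, if_true]
    refine Fintype.sum_equiv (Equiv.funUnique (Fin 1) S) _ _ ?_
    intro s
    rfl
  | succ k ih =>
    have h1 : ∑ s : Fin (k + 2) → S,
        (∏ i : Fin (k + 1), M i (s i.castSucc) (s i.succ)) * g (s 0) (s (Fin.last (k + 1))) =
        ∑ q : S × (Fin (k + 1) → S),
          (∏ i : Fin k, M i (q.2 i.castSucc) (q.2 i.succ)) * (M k (q.2 (Fin.last k)) q.1 *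
            g (q.2 0) q.1) := by
      refine (Fintype.sum_equiv (Fin.snocEquiv (fun _ => S)) _ _ ?_).symm
      rintro ⟨t, s⟩
      simp only [Fin.snocEquiv_apply]
      rw [Fin.prod_univ_castSucc]
      have e0 : (Fin.snoc s t : Fin (k + 2) → S) 0 = s 0 := by
        have : (0 : Fin (k + 2)) = Fin.castSucc 0 := rfl
        rw [this, Fin.snoc_castSucc]
      have e1 : (Fin.snoc s t : Fin (k + 2) → S) (Fin.last (k + 1)) = t := Fin.snoc_last _ _
      have e2 : (Fin.snoc s t : Fin (k + 2) → S) (Fin.last k).succ = t := by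
        rw [Fin.succ_last]; exact Fin.snoc_last _ _
      have e3 : ∀ i : Fin (k + 1), (Fin.snoc s t : Fin (k + 2) → S) i.castSucc = s i :=
        fun i => Fin.snoc_castSucc _ _ _
      have e4 : ∀ i : Fin k, (Fin.snoc s t : Fin (k + 2) → S) i.castSucc.succ = s i.succ := by
        intro i
        rw [Fin.succ_castSucc]; exact e3 _
      have e5 : ∏ i : Fin k, M (i.castSucc : Fin (k + 1)) ((Fin.snoc s t : Fin (k + 2) → S)
          i.castSucc.castSucc) ((Fin.snoc s t : Fin (k + 2) → S) i.castSucc.succ) =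
          ∏ i : Fin k, M i (s i.castSucc) (s i.succ) := by
        refine Finset.prod_congr rfl fun i _ => ?_
        rw [e3, e4]; rfl
      rw [e5, e0, e1, e2, e3]
      rw [Fin.val_last]
      ring
    rw [h1, Fintype.sum_prod_type_right]
    have h2 : ∀ s : Fin (k + 1) → S, ∑ t : S, (∏ i : Fin k, M i (s i.castSucc) (s i.succ)) *
        (M k (s (Fin.last k)) t * g (s 0) t) =
        (∏ i : Fin k, M i (s i.castSucc) (s i.succ)) *
          (fun i j => ∑ t, M k j t * g i t) (s 0) (s (Fin.last k)) := by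
      intro s; rw [Finset.mul_sum]
    rw [Finset.sum_congr rfl fun s _ => h2 s]
    refine (ih (fun i j => ∑ t, M k j t * g i t)).trans ?_
    refine Finset.sum_congr rfl fun i _ => ?_
    simp only [prodM, Matrix.mul_apply, Finset.mul_sum, Finset.sum_mul, Matrix.of_apply]
    rw [Finset.sum_comm]
    refine Finset.sum_congr rfl fun j _ => Finset.sum_congr rfl fun t _ => ?_
    ring

theorem cyc_sum (M : ℕ → S → S → R) (k : ℕ) :
    ∑ s : Fin (k + 1) → S, ∏ p : Fin (k + 1), M p (s p) (s (p + 1)) =
      (prodM M (k + 1)).trace := by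
  have h1 : ∀ s : Fin (k + 1) → S, ∏ p : Fin (k + 1), M p (s p) (s (p + 1)) =
      (∏ i : Fin k, M i (s i.castSucc) (s i.succ)) * (fun i j => M k j i) (s 0) (s (Fin.last k)) := by
    intro s
    rw [Fin.prod_univ_castSucc]
    simp only [Fin.coeSucc_eq_succ, Fin.val_castSucc, Fin.val_last, Fin.last_add_one]
  rw [Finset.sum_congr rfl fun s _ => h1 s]
  refine (path_sum M k (fun i j => M k j i)).trans ?_
  simp only [prodM, Matrix.trace, Matrix.diag, Matrix.mul_apply, Matrix.of_apply]

theorem prodM_alt (D U : S → S → R) (n : ℕ) :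
    prodM (fun k => if Even k then D else U) (2 * n) = (Matrix.of D * Matrix.of U) ^ n := by
  induction n with
  | zero => simp [prodM]
  | succ n ih =>
    have h1 : Even (2 * n) := even_two_mul n
    have h2 : ¬ Even (2 * n + 1) := by
      rw [Nat.not_even_iff_odd]; exact odd_two_mul_add_one n
    rw [show 2 * (n + 1) = 2 * n + 1 + 1 by ring]
    simp only [prodM, h1, h2, if_true, if_false]
    rw [ih, pow_succ, mul_assoc]

end Pool.Agent.CrownPoset
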