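import Mathlib

/-!
# Ultra-log-concavity of products of linear factors `X + c`, `c ≥ 0`
-/

namespace Pool.Agent.CrownPoset

open Polynomial

/-- normalised coefficient `k! * p_k` -/
noncomputable def nc (p : ℝ[X]) (k : ℕ) : ℝ := (k.factorial : ℝ) * p.coeff k

/-- ultra-log-concavity (with nonnegative coefficients and no internal zeros) -/
def ULC (p : ℝ[X]) : Prop :=
  (∀ k, 0 ≤ nc p k) ∧ ∀ i j, i ≤ j → nc p i * nc p (j + 2) ≤ nc p (i + 1) * nc p (j + 1)

theorem ULC.step {p : ℝ[X]} (h : ULC p) {i j : ℕ} (hij : i ≤ j) :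
    nc p i * nc p (j + 1) ≤ nc p (i + 1) * nc p j := by
  rcases Nat.eq_or_lt_of_le hij with rfl | hlt
  · rw [mul_comm]
  · obtain ⟨k, rfl⟩ : ∃ k, j = k + 1 := ⟨j - 1, by omega⟩
    exact h.2 i k (by omega)

theorem ulc_one : ULC 1 := by
  refine ⟨fun k => ?_, fun i j _ => ?_⟩
  · unfold nc
    rw [coeff_one]
    split_ifs <;> positivity
  · unfold nc
    simp [coeff_one]

theorem nc_mul_zero (p : ℝ[X]) (c : ℝ) : nc ((X + C c) * p) 0 = c * nc p 0 := by
  unfold nc; simp [add_mul]

theorem nc_mul_succ (p : ℝ[X]) (c : ℝ) (k : ℕ) :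
    nc ((X + C c) * p) (k + 1) = c * nc p (k + 1) + (k + 1) * nc p k := by
  unfold nc
  rw [add_mul, coeff_add, coeff_X_mul, coeff_C_mul, Nat.factorial_succ]
  push_cast
  ring

theorem ULC.mul {p : ℝ[X]} (h : ULC p) {c : ℝ} (hc : 0 ≤ c) : ULC ((X + C c) * p) := by
  refine ⟨fun k => ?_, fun i j hij => ?_⟩
  · rcases k with _ | k
    · rw [nc_mul_zero]; exact mul_nonneg hc (h.1 0)
    · rw [nc_mul_succ]
      have := h.1 (k + 1)
      have := h.1 k
      positivity
  · rcases i with _ | i
    · rw [nc_mul_zero, show j + 2 = (j + 1) + 1 from rfl, nc_mul_succ, zero_add, nc_mul_succ,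
        show (1 : ℕ) = 0 + 1 from rfl, nc_mul_succ]
      have h1 := h.2 0 j (Nat.zero_le _)
      have h2 := h.step (Nat.zero_le j)
      have a0 := h.1 0
      have a1 := h.1 (0 + 1)
      have b0 := h.1 j
      have b1 := h.1 (j + 1)
      have b2 := h.1 (j + 2)
      have e : (j + 1 + 1 : ℕ) = j + 2 := rfl
      rw [e] at *
      push_cast
      have hj : (0 : ℝ) ≤ (j : ℝ) + 1 := by positivity
      have t1 := mul_le_mul_of_nonneg_left h1 (mul_nonneg hc hc)
      have t2 := mul_le_mul_of_nonneg_left h2 (mul_nonneg hc hj)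
      have t3 : 0 ≤ ((j : ℝ) + 1) * (nc p 0 * nc p j) := by positivity
      nlinarith [t1, t2, t3]
    · rw [show j + 2 = (j + 1) + 1 from rfl, nc_mul_succ, nc_mul_succ, nc_mul_succ, nc_mul_succ]
      have h1 := h.2 (i + 1) j hij
      have h2 := h.step hij
      have h3 := h.step (show i ≤ j + 1 by omega)
      have h4 := h.step (show i ≤ j by omega)
      have a0 := h.1 i
      have a1 := h.1 (i + 1)
      have a2 := h.1 (i + 2)
      have b0 := h.1 j
      have b1 := h.1 (j + 1)
      have b2 := h.1 (j + 2)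
      have hij' : (i : ℝ) + 1 ≤ j := by exact_mod_cast hij
      have e : (j + 1 + 1 : ℕ) = j + 2 := rfl
      have e' : (i + 1 + 1 : ℕ) = i + 2 := rfl
      rw [e] at *
      rw [e'] at *
      push_cast
      generalize nc p i = x0 at *
      generalize nc p (i + 1) = x1 at *
      generalize nc p (i + 2) = x2 at *
      generalize nc p j = y0 at *
      generalize nc p (j + 1) = y1 at *
      generalize nc p (j + 2) = y2 at *
      have hi0 : (0 : ℝ) ≤ i := Nat.cast_nonneg i
      generalize (i : ℝ) = s at *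
      generalize (j : ℝ) = t at *
      -- goal: (c*x1 + (s+1)*x0) * (c*y2 + (t+1+1)*y1) ≤ (c*x2 + (s+1+1)*x1) * (c*y1+(t+1)*y0)
      have t1 := mul_le_mul_of_nonneg_left h1 (mul_nonneg hc hc)
      have t2 : c * ((t + 1) * (x1 * y1)) ≤ c * ((t + 1) * (x2 * y0)) := by
        have : 0 ≤ t + 1 := by linarith
        exact mul_le_mul_of_nonneg_left (mul_le_mul_of_nonneg_left h2 this) hc
      have t3 : c * ((s + 1) * (x0 * y2)) ≤ c * ((s + 1) * (x1 * y1)) := by
        have : 0 ≤ s + 1 := by linarith
        exact mul_le_mul_of_nonneg_left (mul_le_mul_of_nonneg_left h3 this) hc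
      have t4 : (s + 1) * (t + 2) * (x0 * y1) ≤ (s + 1) * (t + 2) * (x1 * y0) := by
        have : 0 ≤ (s + 1) * (t + 2) := mul_nonneg (by linarith) (by linarith)
        exact mul_le_mul_of_nonneg_left h4 this
      have t5 : (s + 1) * (t + 2) * (x1 * y0) ≤ (s + 2) * (t + 1) * (x1 * y0) := by
        have h5 : 0 ≤ x1 * y0 := mul_nonneg a1 b0
        have h6 : (s + 1) * (t + 2) ≤ (s + 2) * (t + 1) := by nlinarith
        exact mul_le_mul_of_nonneg_right h6 h5
      linarith [t1, t2, t3, t4, t5]

/-- product of linear factors -/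
noncomputable def linProd (R : Multiset ℝ) : ℝ[X] := (R.map fun r => X + C r).prod

theorem linProd_cons (r : ℝ) (R : Multiset ℝ) : linProd (r ::ₘ R) = (X + C r) * linProd R := by
  simp [linProd]

theorem ulc_linProd (R : Multiset ℝ) (hR : ∀ r ∈ R, 0 ≤ r) : ULC (linProd R) := by
  induction R using Multiset.induction_on with
  | empty => simpa [linProd] using ulc_one
  | cons r R ih =>
    rw [linProd_cons]
    exact (ih fun s hs => hR s (Multiset.mem_cons_of_mem hs)).mul (hR r (Multiset.mem_cons_self _ _))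

theorem linProd_coeff_pos (R : Multiset ℝ) (hR : ∀ r ∈ R, 1 ≤ r) :
    ∀ k, k ≤ R.card → 0 < (linProd R).coeff k := by
  induction R using Multiset.induction_on with
  | empty => intro k hk; simp at hk; subst hk; simp [linProd]
  | cons r R ih =>
    intro k hk
    have ih' := ih fun s hs => hR s (Multiset.mem_cons_of_mem hs)
    have hr : 1 ≤ r := hR r (Multiset.mem_cons_self _ _)
    have hnn : ∀ j, 0 ≤ (linProd R).coeff j := by
      intro j
      have := (ulc_linProd R fun s hs => (zero_le_one.trans (hR s (Multiset.mem_cons_of_mem hs)))).1 j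
      unfold nc at this
      have hf : (0 : ℝ) < j.factorial := by exact_mod_cast Nat.factorial_pos j
      exact (mul_nonneg_iff_of_pos_left hf).1 this
    rw [Multiset.card_cons] at hk
    rw [linProd_cons, add_mul, coeff_add]
    rcases k with _ | k
    · simp only [mul_coeff_zero, coeff_X_zero, coeff_C_zero, zero_mul, zero_add]
      have := ih' 0 (Nat.zero_le _)
      positivity
    · rw [coeff_X_mul, coeff_C_mul]
      have h1 := ih' k (by omega)
      have h2 := hnn (k + 1)
      have : 0 ≤ r * (linProd R).coeff (k + 1) := by positivity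
      linarith

theorem linProd_coeff_one_le (R : Multiset ℝ) (hR : ∀ r ∈ R, 1 ≤ r) :
    (linProd R).coeff 1 ≤ R.card * (linProd R).coeff 0 := by
  induction R using Multiset.induction_on with
  | empty => simp [linProd, coeff_one]
  | cons r R ih =>
    have ih' := ih fun s hs => hR s (Multiset.mem_cons_of_mem hs)
    have hr : 1 ≤ r := hR r (Multiset.mem_cons_self _ _)
    have h0 := linProd_coeff_pos R (fun s hs => hR s (Multiset.mem_cons_of_mem hs)) 0 (Nat.zero_le _)
    rw [linProd_cons, add_mul, coeff_add, coeff_add, show (1 : ℕ) = 0 + 1 from rfl, coeff_X_mul,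
      coeff_C_mul]
    simp only [mul_coeff_zero, coeff_X_zero, coeff_C_zero, zero_mul, zero_add, Multiset.card_cons]
    push_cast
    have t1 := mul_le_mul_of_nonneg_left ih' (zero_le_one.trans hr)
    nlinarith [t1, mul_le_mul_of_nonneg_right hr h0.le]

theorem le_linProd_coeff_one (R : Multiset ℝ) (hR : ∀ r ∈ R, 1 ≤ r) :
    (R.card : ℝ) ≤ (linProd R).coeff 1 ∧ 1 ≤ (linProd R).coeff 0 := by
  induction R using Multiset.induction_on with
  | empty => simp [linProd, coeff_one]
  | cons r R ih =>
    obtain ⟨ih1, ih0⟩ := ih fun s hs => hR s (Multiset.mem_cons_of_mem hs)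
    have hr : 1 ≤ r := hR r (Multiset.mem_cons_self _ _)
    rw [linProd_cons, add_mul, coeff_add, coeff_add, show (1 : ℕ) = 0 + 1 from rfl, coeff_X_mul,
      coeff_C_mul]
    simp only [mul_coeff_zero, coeff_X_zero, coeff_C_zero, zero_mul, zero_add, Multiset.card_cons]
    push_cast
    have hc : (0 : ℝ) ≤ R.card := Nat.cast_nonneg _
    constructor
    · nlinarith
    · nlinarith

end Pool.Agent.CrownPoset
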